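import Mathlib
import Pool.Agent.Work.MP_d3656f_al.I.Cyc2

/-!
# K/Path : finite paths and finite fillings, as functions

`pth_ex`: from `fox_path` and `coeff_sum_d1` (take `0` for `x = 1`); `fil_ex`: from `fox_H1`:
put `x_j` = the element of the group ring with coefficients `c j`; `Σ_j x_j (sg j - 1) = 0` by
`coeff_sum_d1`; so `x_j = m * fD j`, and `coeff_mul_fD`.
`d1_d2`: the boundary of a boundary is `0`, for arbitrary functions `m` (`Σ_j` of the shifted
values; the same computation as `sum_fD`: the sum over `i` telescopes to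
`m (v (sP g)⁻¹) - m (v (sP 0)⁻¹) = 0`).
`pth`, `fil` are the choices, `Lam x y y'` is the loop
`1 → x → y' ← y ← 1` (with the paths `pth`), `Bj j` the loop `pth (sg j) - (1, j)`.
-/

set_option autoImplicit false

namespace Pool.Agent.Work.MP_d3656f_al

/-- A one-chain given as a function has finite support. -/
def Fin1 {g : ℕ} (c : Fin g ⊕ Fin g → SG g → ℤ) : Prop := ∀ j, (Function.support (c j)).Finite

private theorem dl_self_tr {g : ℕ} (x y u : SG g) : dl (x⁻¹ * y) (x⁻¹ * u) = dl y u := by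
  unfold dl
  by_cases h : u = y
  · rw [if_pos h, if_pos (by rw [h])]
  · rw [if_neg h, if_neg (fun h' => h (mul_left_cancel h'))]

private theorem dl_one_tr {g : ℕ} (x u : SG g) : dl (1 : SG g) (x⁻¹ * u) = dl x u := by
  have h := dl_self_tr x x u
  rw [inv_mul_cancel] at h
  exact h

theorem pth_ex {g : ℕ} (x : SG g) : ∃ c : Fin g ⊕ Fin g → SG g → ℤ, Fin1 c ∧
    (∀ u, d1 c u = dl x u - dl 1 u) ∧ (x = 1 → ∀ j u, c j u = 0) := by
  classical
  by_cases hx : x = 1
  · refine ⟨fun _ _ => 0, fun j => ?_, fun u => ?_, fun _ _ _ => rfl⟩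
    · have h1 : Function.support (fun _ : SG g => (0 : ℤ)) = ∅ := Function.support_zero
      rw [h1]
      exact Set.finite_empty
    · rw [hx, sub_self]
      unfold d1
      simp
  · obtain ⟨w, hw⟩ := fox_path x
    refine ⟨fun j u => (w j).coeff u, fun j => ?_, fun u => ?_, fun h => absurd h hx⟩
    · exact (w j).coeff.finite_support
    · rw [← coeff_sum_d1, hw, MonoidAlgebra.coeff_sub, MonoidAlgebra.one_def,
        MonoidAlgebra.coeff_single, MonoidAlgebra.coeff_single, Finsupp.sub_apply,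
        Finsupp.single_apply, Finsupp.single_apply]
      unfold dl
      congr 1
      · by_cases h : u = x
        · rw [if_pos h, if_pos h.symm]
        · rw [if_neg h, if_neg (fun h' => h h'.symm)]
      · by_cases h : u = 1
        · rw [if_pos h, if_pos h.symm]
        · rw [if_neg h, if_neg (fun h' => h h'.symm)]

private theorem d2_zero {g : ℕ} (j : Fin g ⊕ Fin g) (u : SG g) :
    d2 (fun _ : SG g => (0 : ℤ)) j u = 0 := by
  rcases j with i | i
  · exact sub_self _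
  · exact sub_self _

theorem fil_ex {g : ℕ} (c : Fin g ⊕ Fin g → SG g → ℤ) : ∃ m : SG g → ℤ,
    (Function.support m).Finite ∧ ((∀ j u, c j u = 0) → ∀ u, m u = 0) ∧
      (Fin1 c → (∀ u, d1 c u = 0) → ∀ j u, d2 m j u = c j u) := by
  classical
  have h0f : (Function.support (fun _ : SG g => (0 : ℤ))).Finite := by
    have h1 : Function.support (fun _ : SG g => (0 : ℤ)) = ∅ := Function.support_zero
    rw [h1]
    exact Set.finite_empty
  by_cases h0 : ∀ j u, c j u = 0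
  · refine ⟨fun _ => 0, h0f, fun _ _ => rfl, fun _ _ j u => ?_⟩
    rw [h0 j u, d2_zero]
  · by_cases h1 : Fin1 c ∧ ∀ u, d1 c u = 0
    · obtain ⟨h2, h3⟩ := h1
      have h4 : ∑ j, (fun j => MonoidAlgebra.ofCoeff (Finsupp.ofSupportFinite (c j) (h2 j)) :
          Fin g ⊕ Fin g → MonoidAlgebra ℤ (SG g)) j * (MonoidAlgebra.single (sg j) 1 - 1) = 0 := by
        apply MonoidAlgebra.coeff_injective
        ext v
        rw [coeff_sum_d1]
        exact h3 v
      obtain ⟨m, hm⟩ := fox_H1 _ h4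
      refine ⟨fun u => m.coeff u, m.coeff.finite_support, fun h => absurd h h0, fun _ _ j u => ?_⟩
      rw [← coeff_mul_fD, ← hm j]
      rfl
    · refine ⟨fun _ => 0, h0f, fun h => absurd h h0, fun h2 h3 => absurd ⟨h2, h3⟩ h1⟩

theorem d1_d2 {g : ℕ} (m : SG g → ℤ) (v : SG g) : d1 (d2 m) v = 0 := by
  have key : ∀ i : Fin g,
      (d2 m (Sum.inl i) (v * (sg (Sum.inl i))⁻¹) - d2 m (Sum.inl i) v) +
      (d2 m (Sum.inr i) (v * (sg (Sum.inr i))⁻¹) - d2 m (Sum.inr i) v) =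
      m (v * (sP ((i : ℕ) + 1))⁻¹) - m (v * (sP (i : ℕ))⁻¹) := by
    intro i
    have e1 : v * (sg (Sum.inl i))⁻¹ * (pa i)⁻¹ = v * (pb i)⁻¹ := by
      unfold pa pb
      group
    have e2 : v * (sg (Sum.inl i))⁻¹ * (ma i)⁻¹ = v * (sg (Sum.inr i))⁻¹ * (pb i)⁻¹ := by
      unfold ma pb
      group
    have e3 : v * (sg (Sum.inr i))⁻¹ * (mb i)⁻¹ = v * (ma i)⁻¹ := by
      unfold ma mb
      rw [sP_succ]
      group
    have d2l : ∀ w, d2 m (Sum.inl i) w = m (w * (pa i)⁻¹) - m (w * (ma i)⁻¹) := fun w => rfl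
    have d2r : ∀ w, d2 m (Sum.inr i) w = m (w * (pb i)⁻¹) - m (w * (mb i)⁻¹) := fun w => rfl
    rw [d2l, d2l, d2r, d2r, e1, e2, e3]
    have e4 : (pa i : SG g) = sP (i : ℕ) := rfl
    have e5 : (mb i : SG g) = sP ((i : ℕ) + 1) := rfl
    rw [e4, e5]
    ring
  unfold d1
  rw [Fintype.sum_sum_type, ← Finset.sum_add_distrib, Finset.sum_congr rfl fun i _ => key i,
    ← Finset.sum_range (fun i : ℕ => m (v * (sP (i + 1))⁻¹) - m (v * (sP i)⁻¹)),
    Finset.sum_range_sub (fun i : ℕ => m (v * (sP i : SG g)⁻¹)), sP_top, sP_zero, sub_self]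

theorem d1_tr {g : ℕ} (c : Fin g ⊕ Fin g → SG g → ℤ) (x v : SG g) :
    d1 (fun j u => c j (x⁻¹ * u)) v = d1 c (x⁻¹ * v) := by
  unfold d1
  refine Finset.sum_congr rfl fun j _ => ?_
  rw [mul_assoc]

theorem d2_tr {g : ℕ} (m : SG g → ℤ) (x : SG g) (j : Fin g ⊕ Fin g) (v : SG g) :
    d2 (fun u => m (x⁻¹ * u)) j v = d2 m j (x⁻¹ * v) := by
  rcases j with i | i
  · change m (x⁻¹ * (v * (pa i)⁻¹)) - m (x⁻¹ * (v * (ma i)⁻¹)) =
      m (x⁻¹ * v * (pa i)⁻¹) - m (x⁻¹ * v * (ma i)⁻¹)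
    rw [mul_assoc, mul_assoc]
  · change m (x⁻¹ * (v * (pb i)⁻¹)) - m (x⁻¹ * (v * (mb i)⁻¹)) =
      m (x⁻¹ * v * (pb i)⁻¹) - m (x⁻¹ * v * (mb i)⁻¹)
    rw [mul_assoc, mul_assoc]

/-- The chosen path from `1` to `x`. -/
noncomputable def pth {g : ℕ} (x : SG g) : Fin g ⊕ Fin g → SG g → ℤ := Classical.choose (pth_ex x)

theorem pth_fin {g : ℕ} (x : SG g) : Fin1 (pth x) := (Classical.choose_spec (pth_ex x)).1

theorem pth_d1 {g : ℕ} (x u : SG g) : d1 (pth x) u = dl x u - dl 1 u :=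
  (Classical.choose_spec (pth_ex x)).2.1 u

theorem pth_one {g : ℕ} (j : Fin g ⊕ Fin g) (u : SG g) : pth 1 j u = 0 :=
  (Classical.choose_spec (pth_ex (1 : SG g))).2.2 rfl j u

/-- The chosen filling of a finite loop. -/
noncomputable def fil {g : ℕ} (c : Fin g ⊕ Fin g → SG g → ℤ) : SG g → ℤ :=
  Classical.choose (fil_ex c)

theorem fil_fin {g : ℕ} (c : Fin g ⊕ Fin g → SG g → ℤ) : (Function.support (fil c)).Finite :=
  (Classical.choose_spec (fil_ex c)).1

theorem fil_zero {g : ℕ} (c : Fin g ⊕ Fin g → SG g → ℤ) (h : ∀ j u, c j u = 0) (u : SG g) :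
    fil c u = 0 := (Classical.choose_spec (fil_ex c)).2.1 h u

theorem fil_d2 {g : ℕ} (c : Fin g ⊕ Fin g → SG g → ℤ) (h : Fin1 c) (h' : ∀ u, d1 c u = 0)
    (j : Fin g ⊕ Fin g) (u : SG g) : d2 (fil c) j u = c j u :=
  (Classical.choose_spec (fil_ex c)).2.2 h h' j u

/-- The loop with corners `1, x, y', y`. -/
noncomputable def Lam {g : ℕ} (x y y' : SG g) : Fin g ⊕ Fin g → SG g → ℤ := fun j u =>
  pth x j u + pth (x⁻¹ * y') j (x⁻¹ * u) - pth (y⁻¹ * y') j (y⁻¹ * u) - pth y j u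

/-- The loop `pth (sg j) - (1, j)`. -/
noncomputable def Bj {g : ℕ} (j : Fin g ⊕ Fin g) : Fin g ⊕ Fin g → SG g → ℤ := fun k u =>
  pth (sg j) k u - dl ((1 : SG g), j) (u, k)

private theorem fin_tr {g : ℕ} {c : SG g → ℤ} (h : (Function.support c).Finite) (x : SG g) :
    (Function.support fun u => c (x⁻¹ * u)).Finite := by
  have h1 : (Function.support fun u => c (x⁻¹ * u)) = (fun u => x⁻¹ * u) ⁻¹' (Function.support c) :=
    rfl
  rw [h1]
  exact h.preimage (fun a _ b _ hab => mul_left_cancel hab)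

theorem Lam_fin {g : ℕ} (x y y' : SG g) : Fin1 (Lam x y y') := by
  intro j
  have h1 := pth_fin x j
  have h2 := fin_tr (pth_fin (x⁻¹ * y') j) x
  have h3 := fin_tr (pth_fin (y⁻¹ * y') j) y
  have h4 := pth_fin y j
  apply ((h1.union h2).union (h3.union h4)).subset
  intro u hu
  by_contra hcon
  rw [Set.mem_union, Set.mem_union, Set.mem_union] at hcon
  push Not at hcon
  obtain ⟨⟨c1, c2⟩, c3, c4⟩ := hcon
  rw [Function.notMem_support] at c1 c2 c3 c4
  apply hu
  change pth x j u + pth (x⁻¹ * y') j (x⁻¹ * u) - pth (y⁻¹ * y') j (y⁻¹ * u) - pth y j u = 0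
  rw [c1, c2, c3, c4]
  rfl

theorem Lam_d1 {g : ℕ} (x y y' u : SG g) : d1 (Lam x y y') u = 0 := by
  have h1 : d1 (Lam x y y') u = d1 (pth x) u + d1 (fun j u => pth (x⁻¹ * y') j (x⁻¹ * u)) u -
      d1 (fun j u => pth (y⁻¹ * y') j (y⁻¹ * u)) u - d1 (pth y) u := by
    unfold d1
    rw [← Finset.sum_add_distrib, ← Finset.sum_sub_distrib, ← Finset.sum_sub_distrib]
    refine Finset.sum_congr rfl fun j _ => ?_
    unfold Lam
    ring
  rw [h1, d1_tr, d1_tr, pth_d1, pth_d1, pth_d1, pth_d1, dl_self_tr, dl_self_tr, dl_one_tr,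
    dl_one_tr]
  ring

theorem Lam_one {g : ℕ} (j : Fin g ⊕ Fin g) (u : SG g) : Lam (1 : SG g) 1 1 j u = 0 := by
  unfold Lam
  ring

theorem Bj_fin {g : ℕ} (j : Fin g ⊕ Fin g) : Fin1 (Bj j) := by
  intro k
  apply ((pth_fin (sg j) k).union (Set.finite_singleton (1 : SG g))).subset
  intro u hu
  by_contra hcon
  rw [Set.mem_union, Set.mem_singleton_iff] at hcon
  push Not at hcon
  obtain ⟨c1, c2⟩ := hcon
  rw [Function.notMem_support] at c1
  apply hu
  change pth (sg j) k u - dl ((1 : SG g), j) (u, k) = 0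
  have h1 : dl ((1 : SG g), j) (u, k) = 0 := by
    unfold dl
    rw [if_neg (fun h => c2 (Prod.mk.inj h).1)]
  rw [c1, h1, sub_self]

private theorem d1_edge {g : ℕ} (j : Fin g ⊕ Fin g) (u : SG g) :
    d1 (fun k u => dl ((1 : SG g), j) (u, k)) u = dl (sg j) u - dl 1 u := by
  classical
  unfold d1
  rw [Finset.sum_eq_single j]
  · change dl ((1 : SG g), j) (u * (sg j)⁻¹, j) - dl ((1 : SG g), j) (u, j) = dl (sg j) u - dl 1 u
    unfold dl
    have e1 : ((u * (sg j)⁻¹, j) = ((1 : SG g), j)) ↔ u = sg j := by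
      rw [Prod.mk.injEq, mul_inv_eq_one]
      exact ⟨fun h => h.1, fun h => ⟨h, rfl⟩⟩
    have e2 : ((u, j) = ((1 : SG g), j)) ↔ u = 1 := by
      rw [Prod.mk.injEq]
      exact ⟨fun h => h.1, fun h => ⟨h, rfl⟩⟩
    by_cases h1 : u = sg j
    · rw [if_pos (e1.2 h1), if_pos h1]
      by_cases h2 : u = 1
      · rw [if_pos (e2.2 h2), if_pos h2]
      · rw [if_neg (fun h => h2 (e2.1 h)), if_neg h2]
    · rw [if_neg (fun h => h1 (e1.1 h)), if_neg h1]
      by_cases h2 : u = 1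
      · rw [if_pos (e2.2 h2), if_pos h2]
      · rw [if_neg (fun h => h2 (e2.1 h)), if_neg h2]
  · intro k _ hk
    change dl ((1 : SG g), j) (u * (sg k)⁻¹, k) - dl ((1 : SG g), j) (u, k) = 0
    unfold dl
    rw [if_neg (fun h => hk (Prod.mk.inj h).2), if_neg (fun h => hk (Prod.mk.inj h).2), sub_self]
  · intro h
    exact absurd (Finset.mem_univ j) h

theorem Bj_d1 {g : ℕ} (j : Fin g ⊕ Fin g) (u : SG g) : d1 (Bj j) u = 0 := by
  have h1 : d1 (Bj j) u = d1 (pth (sg j)) u - d1 (fun k u => dl ((1 : SG g), j) (u, k)) u := by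
    unfold d1
    rw [← Finset.sum_sub_distrib]
    refine Finset.sum_congr rfl fun k _ => ?_
    unfold Bj
    ring
  rw [h1, pth_d1, d1_edge, sub_self]

end Pool.Agent.Work.MP_d3656f_al
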