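import Mathlib
import Pool.Agent.Work.MP_d3656f_al.M.CG

/-!
# K/Ray : rays towards a boundary point or an orbit point

`IsEnd p`: `p ∈ Bd` or `p = nrm (pt w)` for some `w : G` (so `p 2 = 1`, `p ∈ Cone`).
`Ray C x p z`: `z 0 = x`, all `z k` are between `x` and `p`, `q x (z k) ≤ C 2^k`, and
`2^k ≤ C q x (z k)` unless `nrm (pt (z k)) = p`.

`ray_ex`: `p ∈ Bd`: `z 0 = x` and `z k` from `cg x p (2^k)` for `k ≥ 1`. `p = nrm (pt w)`: as long as
`2^k ≤ q x w` use `cg x (pt w) (2^k)`, for larger `k` put `z k = w` (then `q x w < 2^k`);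
`Bt_smul_right` (`nrm` is scaling by a positive factor).
`ray_fellow`: let `q x x' ≤ r`. Then `z' k` is between `x` and `p` with another constant
(`Bt_move`). If both `q x (z k)` and `q x (z' k)` are comparable to `2^k` then `ratio` applies. If
`nrm (pt (z k)) = p` but not for `z' k`: `p = nrm (pt w)` with `w = z k` (`eq_of_pt`: `nrm (pt u) =
nrm (pt v)` implies `pt u = pt v` as both are in `Hyp`), `q x w ≤ C 2^k`, and
`q x' (z' k) ≤ C' q x' w` because `z' k` is between `x'` and `w`, `q x' (z' k) ≥ 2^k / C`; so again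
both levels are comparable and `ratio` applies. If both are equal to `p` then `z k = z' k`.
`ray_step`: the same comparison for `z k` and `z (k+1)`.
`ray_leave`: for `p ∈ Bd` always `2^k ≤ C q x (z k) ≤ 4 C q x u q u (z k)`. For `p = nrm (pt w)`:
`q x (z k) ≤ C' q x w` for all `k` (`z k` between `x` and `w`, `q (z k) w ≥ 1`) so
`nrm (pt (z k)) = p` for large `k`.
`ray_act`: from `Bt_act_bd`, `Bt_act_pt`, `act_pt`; `bact g (nrm (pt w)) = nrm (pt (g w))`.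
-/

set_option autoImplicit false

namespace Pool.Agent.Work.MP_d3656f_al

namespace Model

variable {G : Type} [Group G] (M : Model G)

/-- End points of rays. -/
def IsEnd (p : V) : Prop := p ∈ Bd ∨ ∃ w : G, p = nrm (M.pt w)

/-- Rays. -/
def Ray (C : ℝ) (x : G) (p : V) (z : ℕ → G) : Prop :=
  z 0 = x ∧ ∀ k, Bt C (M.pt x) (M.pt (z k)) p ∧ M.q x (z k) ≤ C * 2 ^ k ∧
    ((2 : ℝ) ^ k ≤ C * M.q x (z k) ∨ nrm (M.pt (z k)) = p)

theorem end_cone {p : V} (hp : M.IsEnd p) : p ∈ Cone := by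
  rcases hp with h | ⟨w, rfl⟩
  · exact bd_cone h
  · exact nrm_cone (M.pt_cone w)

private theorem end_two {p : V} (hp : M.IsEnd p) : p 2 = 1 := by
  rcases hp with h | ⟨w, rfl⟩
  · exact h.2
  · exact nrm_two (M.pt_cone w).2

theorem end_nrm {p : V} (hp : M.IsEnd p) : nrm p = p := by
  unfold nrm
  rw [M.end_two hp, inv_one, one_smul]

theorem bact_nrm_pt (g w : G) : M.bact g (nrm (M.pt w)) = nrm (M.pt (g * w)) := by
  have h : 0 < ((M.pt w) 2)⁻¹ := inv_pos.2 (M.pt_cone w).2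
  have h1 : nrm (M.pt w) = ((M.pt w) 2)⁻¹ • M.pt w := rfl
  have h2 : M.bact g (nrm (M.pt w)) = nrm (M.act g (nrm (M.pt w))) := rfl
  rw [h2, h1, M.act_smul, nrm_smul h, M.act_pt]

theorem end_act (g : G) {p : V} (hp : M.IsEnd p) : M.IsEnd (M.bact g p) := by
  rcases hp with h | ⟨w, rfl⟩
  · exact Or.inl (M.bact_mem g h)
  · exact Or.inr ⟨g * w, M.bact_nrm_pt g w⟩

theorem end_act_mul (g h : G) {p : V} (hp : M.IsEnd p) :
    M.bact (g * h) p = M.bact g (M.bact h p) := by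
  rcases hp with h1 | ⟨w, rfl⟩
  · exact M.bact_mul g h h1
  · rw [M.bact_nrm_pt, M.bact_nrm_pt, M.bact_nrm_pt, mul_assoc]

theorem end_act_one {p : V} (hp : M.IsEnd p) : M.bact 1 p = p := by
  rcases hp with h1 | ⟨w, rfl⟩
  · exact M.bact_one h1
  · rw [M.bact_nrm_pt, one_mul]

theorem eq_of_nrm_pt {u v : G} (h : nrm (M.pt u) = nrm (M.pt v)) : u = v := by
  apply M.eq_of_pt
  have hu := M.pt_cone u
  have hv := M.pt_cone v
  have hu1 : Q (M.pt u) (M.pt u) = 1 := (M.pt_hyp u).1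
  have hv1 : Q (M.pt v) (M.pt v) = 1 := (M.pt_hyp v).1
  have h1 : M.pt u = ((M.pt u) 2 * ((M.pt v) 2)⁻¹) • M.pt v := by
    have h2 : (M.pt u) 2 • nrm (M.pt u) = M.pt u := by
      unfold nrm
      rw [smul_smul, mul_inv_cancel₀ hu.2.ne', one_smul]
    calc M.pt u = (M.pt u) 2 • nrm (M.pt u) := h2.symm
      _ = (M.pt u) 2 • nrm (M.pt v) := by rw [h]
      _ = ((M.pt u) 2 * ((M.pt v) 2)⁻¹) • M.pt v := by
          unfold nrm
          rw [smul_smul]
  have h2 : ((M.pt u) 2 * ((M.pt v) 2)⁻¹) = 1 := by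
    have h3 : 0 < (M.pt u) 2 * ((M.pt v) 2)⁻¹ := mul_pos hu.2 (inv_pos.2 hv.2)
    have h4 : Q (M.pt u) (M.pt u) = ((M.pt u) 2 * ((M.pt v) 2)⁻¹) *
        (((M.pt u) 2 * ((M.pt v) 2)⁻¹) * Q (M.pt v) (M.pt v)) := by
      conv_lhs => rw [h1]
      rw [Q_smul_left, Q_smul_right]
    rw [hu1, hv1, mul_one] at h4
    nlinarith
  rw [h1, h2, one_smul]

theorem nrm_pt_not_bd (u : G) : nrm (M.pt u) ∉ Bd := by
  intro h
  have h1 : Q (M.pt u) (M.pt u) = 1 := (M.pt_hyp u).1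
  have h2 : Q (nrm (M.pt u)) (nrm (M.pt u)) = 0 := h.1
  have h3 : 0 < ((M.pt u) 2)⁻¹ := inv_pos.2 (M.pt_cone u).2
  unfold nrm at h2
  rw [Q_smul_left, Q_smul_right, h1, mul_one] at h2
  nlinarith

theorem Bt_act_end {C : ℝ} (g x z : G) {p : V} (hp : M.IsEnd p) :
    Bt C (M.pt (g * x)) (M.pt (g * z)) (M.bact g p) ↔ Bt C (M.pt x) (M.pt z) p := by
  rcases hp with h1 | ⟨w, rfl⟩
  · exact M.Bt_act_bd g x z h1
  · rw [M.bact_nrm_pt]
    unfold nrm
    rw [Bt_smul_right (inv_pos.2 (M.pt_cone _).2), Bt_smul_right (inv_pos.2 (M.pt_cone _).2)]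
    exact M.Bt_act_pt g x z w

private theorem Bt_self {C : ℝ} (hC : 1 ≤ C) (x : G) {p : V} (hp : p ∈ Cone) :
    Bt C (M.pt x) (M.pt x) p := by
  have h1 : Q (M.pt x) (M.pt x) = 1 := (M.pt_hyp x).1
  have h2 : 0 ≤ Q (M.pt x) p := Q_nonneg (M.pt_cone x) hp
  unfold Bt
  rw [h1]
  nlinarith

theorem ray_ex : ∃ C : ℝ, 1 ≤ C ∧ ∀ (x : G) (p : V), M.IsEnd p → ∃ z : ℕ → G, M.Ray C x p z := by
  classical
  obtain ⟨C0, hC0, hcg⟩ := M.cg
  have hC : 1 ≤ 4 * C0 ^ 2 := by nlinarith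
  have hC1 : C0 ≤ 4 * C0 ^ 2 := by nlinarith
  have hC2 : 4 * C0 ≤ 4 * C0 ^ 2 := by nlinarith
  have hC3 : C0 ^ 2 ≤ 4 * C0 ^ 2 := by nlinarith
  refine ⟨4 * C0 ^ 2, hC, fun x p hp => ?_⟩
  have h2k : ∀ k : ℕ, (1 : ℝ) ≤ 2 ^ k := fun k => one_le_pow₀ (by norm_num)
  have hpc := M.end_cone hp
  -- one point for each level
  have key : ∀ k : ℕ, ∃ z : G, (k = 0 → z = x) ∧ Bt (4 * C0 ^ 2) (M.pt x) (M.pt z) p ∧
      M.q x z ≤ 4 * C0 ^ 2 * 2 ^ k ∧
      ((2 : ℝ) ^ k ≤ 4 * C0 ^ 2 * M.q x z ∨ nrm (M.pt z) = p) := by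
    intro k
    by_cases hk : k = 0
    · refine ⟨x, fun _ => rfl, M.Bt_self hC x hpc, ?_, Or.inl ?_⟩
      · rw [M.q_self, hk]
        simpa using hC
      · rw [M.q_self, hk]
        simpa using hC
    · rcases hp with h1 | ⟨w, hw⟩
      · obtain ⟨z, hz1, hz2, -, hz4⟩ := hcg x p (2 ^ k) (h2k k) (Or.inl h1)
        refine ⟨z, fun h => absurd h hk, Bt_mono hC3 (M.pt_cone x) hpc hz4, ?_, Or.inl ?_⟩
        · exact hz1.trans (mul_le_mul_of_nonneg_right hC1 (by linarith [h2k k]))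
        · refine hz2.trans (mul_le_mul_of_nonneg_right hC2 ?_)
          linarith [M.one_le_q x z]
      · have hwp : 0 < ((M.pt w) 2)⁻¹ := inv_pos.2 (M.pt_cone w).2
        by_cases hle : (2 : ℝ) ^ k ≤ Q (M.pt x) (M.pt w)
        · obtain ⟨z, hz1, hz2, -, hz4⟩ := hcg x (M.pt w) (2 ^ k) (h2k k)
            (Or.inr ⟨M.pt_hyp w, hle⟩)
          refine ⟨z, fun h => absurd h hk, ?_, ?_, Or.inl ?_⟩
          · rw [hw]
            unfold nrm
            rw [Bt_smul_right hwp]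
            exact Bt_mono hC3 (M.pt_cone x) (M.pt_cone w) hz4
          · exact hz1.trans (mul_le_mul_of_nonneg_right hC1 (by linarith [h2k k]))
          · refine hz2.trans (mul_le_mul_of_nonneg_right hC2 ?_)
            linarith [M.one_le_q x z]
        · push Not at hle
          refine ⟨w, fun h => absurd h hk, ?_, ?_, Or.inr hw.symm⟩
          · rw [hw]
            unfold nrm
            rw [Bt_smul_right hwp, Bt_symm]
            exact M.Bt_self hC w (M.pt_cone x)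
          · have h1 : M.q x w = Q (M.pt x) (M.pt w) := rfl
            rw [h1]
            nlinarith [h2k k]
  choose z hz0 hz using key
  exact ⟨z, hz0 0 rfl, hz⟩

theorem ray_act {C : ℝ} (g x : G) {p : V} (hp : M.IsEnd p) {z : ℕ → G} (h : M.Ray C x p z) :
    M.Ray C (g * x) (M.bact g p) (fun k => g * z k) := by
  refine ⟨by simp only [h.1], fun k => ?_⟩
  obtain ⟨h1, h2, h3⟩ := h.2 k
  refine ⟨(M.Bt_act_end g x (z k) hp).2 h1, ?_, ?_⟩
  · simp only
    rw [M.q_left]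
    exact h2
  · simp only
    rw [M.q_left]
    rcases h3 with h3 | h3
    · exact Or.inl h3
    · right
      rw [← M.bact_nrm_pt, h3]

/-- comparison of two points of the same level. -/
private theorem lvl {A : ℝ} (hA : 1 ≤ A) {x a b : G} {p : V} {s : ℝ} (hs : 0 < s)
    (hp : M.IsEnd p) (ha1 : Bt A (M.pt x) (M.pt a) p) (ha2 : M.q x a ≤ A * s)
    (ha3 : s ≤ A * M.q x a ∨ nrm (M.pt a) = p) (hb1 : Bt A (M.pt x) (M.pt b) p)
    (hb2 : M.q x b ≤ A * s) (hb3 : s ≤ A * M.q x b ∨ nrm (M.pt b) = p) :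
    M.q a b ≤ 4 * A * A ^ 2 := by
  have hA2 : A ≤ A ^ 2 := by nlinarith
  have q1 := M.one_le_q x a
  have q2 := M.one_le_q x b
  have hend : ∀ c d : G, nrm (M.pt c) = p → Bt A (M.pt x) (M.pt d) p →
      M.q x d ≤ A ^ 2 * M.q x c := by
    intro c d hc hd
    rw [← hc] at hd
    unfold nrm at hd
    rw [Bt_smul_right (inv_pos.2 (M.pt_cone _).2)] at hd
    have h1 : M.q x d * M.q d c ≤ A * M.q x c := hd
    have h2 := M.one_le_q d c
    have h3 := M.one_le_q x d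
    have h4 := M.one_le_q x c
    nlinarith
  have hlow : ∀ c d : G, M.q x c ≤ A * s → s ≤ A * M.q x d → M.q x c ≤ A ^ 2 * M.q x d := by
    intro c d hc hd
    nlinarith
  have e1 : M.q x a ≤ A ^ 2 * M.q x b := by
    rcases hb3 with h | h
    · exact hlow a b ha2 h
    · exact hend b a h ha1
  have e2 : M.q x b ≤ A ^ 2 * M.q x a := by
    rcases ha3 with h | h
    · exact hlow b a hb2 h
    · exact hend a b h hb1
  exact ratio (M.pt_hyp x) (M.pt_hyp a) (M.pt_hyp b) (M.end_cone hp) ha1 hb1 e1 e2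

/-- enlarging the constant at a point of a ray. -/
private theorem ray_pt {C A : ℝ} (hCA : C ≤ A) {x : G} {p : V} (hp : M.IsEnd p) {z : ℕ → G}
    (h : M.Ray C x p z) (k : ℕ) : Bt A (M.pt x) (M.pt (z k)) p ∧ M.q x (z k) ≤ A * 2 ^ k ∧
      ((2 : ℝ) ^ k ≤ A * M.q x (z k) ∨ nrm (M.pt (z k)) = p) := by
  obtain ⟨h1, h2, h3⟩ := h.2 k
  have h2k : (0 : ℝ) < 2 ^ k := by positivity
  have hq := M.one_le_q x (z k)
  refine ⟨Bt_mono hCA (M.pt_cone x) (M.end_cone hp) h1, ?_, ?_⟩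
  · exact h2.trans (mul_le_mul_of_nonneg_right hCA h2k.le)
  · rcases h3 with h3 | h3
    · exact Or.inl (h3.trans (mul_le_mul_of_nonneg_right hCA (by linarith)))
    · exact Or.inr h3

theorem ray_step (C : ℝ) : ∃ C' : ℝ, ∀ (x : G) (p : V) (z : ℕ → G), M.IsEnd p →
    M.Ray C x p z → ∀ k, M.q (z k) (z (k + 1)) ≤ C' := by
  refine ⟨4 * (2 * max C 1) * (2 * max C 1) ^ 2, fun x p z hp h k => ?_⟩
  have hm1 : 1 ≤ max C 1 := le_max_right _ _
  have hm2 : C ≤ max C 1 := le_max_left _ _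
  obtain ⟨a1, a2, a3⟩ := M.ray_pt (A := 2 * max C 1) (by linarith) hp h k
  obtain ⟨b1, b2, b3⟩ := M.ray_pt (A := max C 1) hm2 hp h (k + 1)
  have h2k : (0 : ℝ) < 2 ^ k := by positivity
  have hq := M.one_le_q x (z (k + 1))
  refine M.lvl (by linarith) h2k hp a1 a2 a3
    (Bt_mono (by linarith) (M.pt_cone x) (M.end_cone hp) b1) ?_ ?_
  · rw [pow_succ] at b2
    linarith
  · rcases b3 with b3 | b3
    · left
      rw [pow_succ] at b3
      nlinarith
    · exact Or.inr b3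

theorem ray_fellow (C r : ℝ) : ∃ C' : ℝ, ∀ (x x' : G) (p : V) (z z' : ℕ → G), M.IsEnd p →
    M.q x x' ≤ r → M.Ray C x p z → M.Ray C x' p z' → ∀ k, M.q (z k) (z' k) ≤ C' := by
  have hm1 : 1 ≤ max C 1 := le_max_right _ _
  have hm2 : C ≤ max C 1 := le_max_left _ _
  have hr1 : 1 ≤ max r 1 := le_max_right _ _
  have hr2 : r ≤ max r 1 := le_max_left _ _
  generalize hCC : max C 1 = C1 at hm1 hm2
  generalize hrr : max r 1 = r1 at hr1 hr2
  have hr4 : r1 ≤ r1 ^ 4 := by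
    have h1 : r1 * 1 ≤ r1 * r1 ^ 3 := mul_le_mul_of_nonneg_left (one_le_pow₀ hr1) (by linarith)
    calc r1 = r1 * 1 := (mul_one _).symm
      _ ≤ r1 * r1 ^ 3 := h1
      _ = r1 ^ 4 := by ring
  have hA1 : 4 * (r1 * C1) ≤ 256 * r1 ^ 4 * C1 := by
    have h1 : r1 * C1 ≤ r1 ^ 4 * C1 := mul_le_mul_of_nonneg_right hr4 (by linarith)
    have h2 : 0 ≤ r1 ^ 4 * C1 := by positivity
    nlinarith
  have hA2 : C1 ≤ 256 * r1 ^ 4 * C1 := by
    have h1 : 1 * C1 ≤ r1 * C1 := mul_le_mul_of_nonneg_right hr1 (by linarith)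
    nlinarith
  refine ⟨4 * (256 * r1 ^ 4 * C1) * (256 * r1 ^ 4 * C1) ^ 2, fun x x' p z z' hp hxx h h' k => ?_⟩
  obtain ⟨a1, a2, a3⟩ := M.ray_pt (A := 256 * r1 ^ 4 * C1) (by linarith) hp h k
  obtain ⟨b1, b2, b3⟩ := M.ray_pt (A := C1) hm2 hp h' k
  have h2k : (0 : ℝ) < 2 ^ k := by positivity
  have q1 := M.one_le_q x' (z' k)
  have q2 := M.one_le_q x (z' k)
  have q3 := M.one_le_q x x'
  have t1 := M.q_tri x x' (z' k)
  have t2 := M.q_tri x' x (z' k)
  rw [M.q_symm x' x] at t2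
  refine M.lvl (by linarith) h2k hp a1 a2 a3 ?_ ?_ ?_
  · refine Bt_move (M.pt_hyp x') (M.pt_hyp x) (M.pt_hyp (z' k)) (M.pt_hyp (z' k))
      (M.end_cone hp) ?_ ?_ b1
    · have h1 : M.q x' x ≤ r := by
        rw [M.q_symm]
        exact hxx
      exact h1.trans hr2
    · have h1 : M.q (z' k) (z' k) ≤ r1 := by
        rw [M.q_self]
        exact hr1
      exact h1
  · have h1 : M.q x x' * M.q x' (z' k) ≤ r1 * (C1 * 2 ^ k) :=
      mul_le_mul (hxx.trans hr2) b2 (by linarith) (by linarith)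
    calc M.q x (z' k) ≤ 4 * (M.q x x' * M.q x' (z' k)) := t1
      _ ≤ 4 * (r1 * (C1 * 2 ^ k)) := by linarith
      _ = (4 * (r1 * C1)) * 2 ^ k := by ring
      _ ≤ 256 * r1 ^ 4 * C1 * 2 ^ k := mul_le_mul_of_nonneg_right hA1 h2k.le
  · rcases b3 with b3 | b3
    · left
      have h1 : M.q x x' * M.q x (z' k) ≤ r1 * M.q x (z' k) :=
        mul_le_mul_of_nonneg_right (hxx.trans hr2) (by linarith)
      calc (2 : ℝ) ^ k ≤ C1 * M.q x' (z' k) := b3
        _ ≤ C1 * (4 * (r1 * M.q x (z' k))) :=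
            mul_le_mul_of_nonneg_left (by linarith) (by linarith)
        _ = (4 * (r1 * C1)) * M.q x (z' k) := by ring
        _ ≤ 256 * r1 ^ 4 * C1 * M.q x (z' k) := mul_le_mul_of_nonneg_right hA1 (by linarith)
    · exact Or.inr b3

private theorem fin_pow (K : ℝ) : {k : ℕ | (2 : ℝ) ^ k ≤ K}.Finite := by
  apply (Set.finite_Iic ⌊K⌋₊).subset
  intro k hk
  rw [Set.mem_Iic]
  apply Nat.le_floor
  have h1 : (k : ℝ) ≤ 2 ^ k := by
    have h2 := (Nat.lt_two_pow_self (n := k)).le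
    have h3 : ((k : ℕ) : ℝ) ≤ ((2 ^ k : ℕ) : ℝ) := by exact_mod_cast h2
    push_cast at h3
    exact h3
  exact h1.trans hk

theorem ray_leave {C : ℝ} {x : G} {p : V} {z : ℕ → G} (hp : M.IsEnd p) (h : M.Ray C x p z)
    (u : G) (r : ℝ) : {k : ℕ | M.q u (z k) ≤ r ∧ nrm (M.pt (z k)) ≠ p}.Finite := by
  apply (fin_pow (max C 1 * (4 * (M.q x u * r)))).subset
  rintro k ⟨h1, h2⟩
  obtain ⟨-, -, a3⟩ := M.ray_pt (le_max_left C 1) hp h k
  have hm1 : 1 ≤ max C 1 := le_max_right _ _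
  rcases a3 with a3 | a3
  · have t1 := M.q_tri x u (z k)
    have q1 := M.one_le_q x u
    have h3 : M.q x u * M.q u (z k) ≤ M.q x u * r :=
      mul_le_mul_of_nonneg_left h1 (by linarith)
    exact a3.trans (mul_le_mul_of_nonneg_left (by linarith) (by linarith))
  · exact absurd a3 h2

/-- Once the ray of an orbit point has arrived it stays, and it arrives. -/
theorem ray_arrive {C : ℝ} {x w : G} {z : ℕ → G} (h : M.Ray C x (nrm (M.pt w)) z) :
    ∃ N : ℕ, ∀ k ≥ N, z k = w := by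
  have hp : M.IsEnd (nrm (M.pt w)) := Or.inr ⟨w, rfl⟩
  have hm1 : 1 ≤ max C 1 := le_max_right _ _
  have hfin := fin_pow (max C 1 * (max C 1 * M.q x w))
  obtain ⟨N, hN⟩ := hfin.bddAbove
  refine ⟨N + 1, fun k hk => ?_⟩
  obtain ⟨a1, -, a3⟩ := M.ray_pt (le_max_left C 1) hp h k
  rcases a3 with a3 | a3
  · exfalso
    unfold nrm at a1
    rw [Bt_smul_right (inv_pos.2 (M.pt_cone _).2)] at a1
    have h1 : M.q x (z k) * M.q (z k) w ≤ max C 1 * M.q x w := a1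
    have h2 := M.one_le_q (z k) w
    have h3 := M.one_le_q x (z k)
    have h4 : M.q x (z k) ≤ max C 1 * M.q x w := by nlinarith
    have h5 : (2 : ℝ) ^ k ≤ max C 1 * (max C 1 * M.q x w) :=
      a3.trans (mul_le_mul_of_nonneg_left h4 (by linarith))
    have h6 := hN h5
    omega
  · exact M.eq_of_nrm_pt a3

private theorem far_bd {p : V} (hp : M.IsEnd p) : ∃ ξ ∈ Bd, 0 < Q p ξ := by
  rcases hp with h | ⟨w, rfl⟩
  · refine ⟨![-p 0, -p 1, 1], ⟨?_, ?_⟩, ?_⟩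
    · have h1 := h.1
      have h2 := h.2
      unfold Q at h1 ⊢
      rw [h2] at h1
      simp only [Matrix.cons_val_zero, Matrix.cons_val_one, Matrix.cons_val]
      linarith
    · simp
    · have h1 := h.1
      have h2 := h.2
      unfold Q at h1 ⊢
      rw [h2] at h1
      simp only [Matrix.cons_val_zero, Matrix.cons_val_one, Matrix.cons_val]
      rw [h2]
      linarith
  · have hb : (![1, 0, 1] : V) ∈ Bd := by
      refine ⟨?_, ?_⟩
      · unfold Q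
        simp
      · simp
    refine ⟨![1, 0, 1], hb, ?_⟩
    unfold nrm
    rw [Q_smul_left]
    exact mul_pos (inv_pos.2 (M.pt_cone _).2) (Q_pos_hyp (M.pt_hyp w) (bd_cone hb))

/-- The sets between are proper. -/
theorem not_all_Bt (C : ℝ) (v : G) {p : V} (hp : M.IsEnd p) :
    ∃ u : G, u ≠ v ∧ ¬ Bt C (M.pt v) (M.pt u) p := by
  obtain ⟨C0, hC0, hcg⟩ := M.cg
  obtain ⟨ξ, hξ, hpos⟩ := M.far_bd hp
  by_contra hcon
  push Not at hcon
  have hm1 : C ≤ max C (C0 ^ 2) := le_max_left _ _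
  have hm2 : C0 ^ 2 ≤ max C (C0 ^ 2) := le_max_right _ _
  have hpc := M.end_cone hp
  have hξc := bd_cone hξ
  have hvp := Q_nonneg (M.pt_cone v) hpc
  have hvξ := Q_nonneg (M.pt_cone v) hξc
  -- a large number
  have hK0 : 0 ≤ 4 * max C (C0 ^ 2) * (Q (M.pt v) p * Q (M.pt v) ξ) / Q p ξ := by positivity
  generalize hK : 4 * max C (C0 ^ 2) * (Q (M.pt v) p * Q (M.pt v) ξ) / Q p ξ = K at hK0
  obtain ⟨z, -, hz2, -, hz4⟩ := hcg v ξ (4 * C0 * (K + 2)) (by nlinarith) (Or.inl hξ)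
  have hq : K + 2 ≤ M.q v z := by
    have h1 : 0 < 4 * C0 := by linarith
    exact le_of_mul_le_mul_left hz2 h1
  have hzv : z ≠ v := by
    rintro rfl
    rw [M.q_self] at hq
    linarith
  have h1 := Bt_mono hm1 (M.pt_cone v) hpc (hcon z hzv)
  have h2 := Bt_mono hm2 (M.pt_cone v) hξc hz4
  have h3 := shadow (M.pt_hyp v) (M.pt_hyp z) hpc hξc h1 h2
  have h4 : (M.q v z) ^ 2 ≤ K := by
    rw [← hK, le_div_iff₀ hpos, mul_comm]
    exact h3
  nlinarith

end Model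

end Pool.Agent.Work.MP_d3656f_al
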