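import Mathlib
import Pool.Agent.Work.MP_d3656f_al.K.Path
import Pool.Agent.Work.MP_d3656f_al.K.Ray

/-!
# K/Def : the contraction, definitions (FIXED, all proofs are complete here)
-/

set_option autoImplicit false

namespace Pool.Agent.Work.MP_d3656f_al

variable {g : ℕ} (M : Model (SG g))

/-- The constant of the rays. -/
noncomputable def rC : ℝ := Classical.choose M.ray_ex

theorem rC_one : 1 ≤ rC M := (Classical.choose_spec M.ray_ex).1

open Classical in
/-- The chosen ray from `1` to the end `p`. -/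
noncomputable def rZ (p : V) : ℕ → SG g :=
  if h : M.IsEnd p then Classical.choose ((Classical.choose_spec M.ray_ex).2 1 p h) else fun _ => 1

theorem rZ_ray {p : V} (hp : M.IsEnd p) : M.Ray (rC M) 1 p (rZ M p) := by
  unfold rZ
  rw [dif_pos hp]
  exact Classical.choose_spec ((Classical.choose_spec M.ray_ex).2 1 p hp)

/-- The chosen ray from `v` to the end `p`. -/
noncomputable def zeta (p : V) (v : SG g) (k : ℕ) : SG g := v * rZ M (M.bact v⁻¹ p) k

/-- The contraction on vertices. -/
noncomputable def K0f (p : V) (v : SG g) (j : Fin g ⊕ Fin g) (u : SG g) : ℤ :=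
  - ∑ᶠ k : ℕ, pth ((zeta M p v k)⁻¹ * zeta M p v (k + 1)) j ((zeta M p v k)⁻¹ * u)

/-- The contraction on edges. -/
noncomputable def K1f (p : V) (v : SG g) (j : Fin g ⊕ Fin g) (u : SG g) : ℤ :=
  - (∑ᶠ k : ℕ, fil (Lam ((zeta M p v k)⁻¹ * zeta M p v (k + 1))
      ((zeta M p v k)⁻¹ * zeta M p (v * sg j) k)
      ((zeta M p v k)⁻¹ * zeta M p (v * sg j) (k + 1))) ((zeta M p v k)⁻¹ * u))
    - fil (Bj j) (v⁻¹ * u)

/-- The chain of the end `p`. -/
noncomputable def eE (p : V) (u : SG g) : ℤ := by
  classical exact if nrm (M.pt u) = p then 1 else 0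

end Pool.Agent.Work.MP_d3656f_al
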