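import Mathlib
import Pool.Agent.Work.MP_d3656f_al.K.Def

/-!
# K/K0 : the contraction on vertices

* `zeta_ray`: by `ray_act` (`g = v`, `x = 1`) and `end_act_mul`, `end_act_one`:
  `zeta M p v` is a ray from `v` to `p` with constant `rC M`.
* `zeta_inv`: if `bact x p = p` then `zeta p (x v) k = x * zeta p v k`, because
  `bact (x v)⁻¹ p = bact v⁻¹ (bact x⁻¹ p) = bact v⁻¹ p`.
* `K0_locfin`: by `ray_step` the elements `(ζ k)⁻¹ ζ (k+1)` lie in a finite set, so the supports of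
  the corresponding `pth` lie in one finite set `N`; a nonzero term at `u` requires
  `(ζ k)⁻¹ u ∈ N`, so `q u (ζ k)` is bounded, and `ζ k ≠ ζ (k+1)` (otherwise `pth 1 = 0`), so not
  both are equal to `p`; so by `ray_leave` (for `k` and for `k+1`) only finitely many `k`. The bound
  for `q u (ζ k)` depends only on `M` (and `g`).
* `K0_supp`: for such `k` the point `ζ k` is between `v` and `p`, `q u (ζ k)` bounded: `Bt_move`.
* `K0_d1`: `d1` is a finite sum of shifts, so it commutes with the locally finite sum; each term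
  gives `dl (ζ (k+1)) u - dl (ζ k) u` (`pth_d1`, `d1_tr`), the sum over `k < N` is
  `dl (ζ N) u - dl v u`. For `N` large `dl (ζ N) u = eE p u`: if `p = nrm (pt w)`, `ζ N = w` by
  `ray_arrive` and `eE p u = dl w u` (`eq_of_nrm_pt`); if `p ∈ Bd`, `ζ N ≠ u` by `ray_leave` and
  `eE p u = 0` (`nrm_pt_not_bd`).
* `K0_inv`: from `zeta_inv`.
-/

set_option autoImplicit false

namespace Pool.Agent.Work.MP_d3656f_al

variable {g : ℕ} (M : Model (SG g))

theorem zeta_ray {p : V} (hp : M.IsEnd p) (v : SG g) : M.Ray (rC M) v p (zeta M p v) := by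
  have h1 : M.IsEnd (M.bact v⁻¹ p) := M.end_act v⁻¹ hp
  have h2 := M.ray_act v 1 h1 (rZ_ray M h1)
  rw [mul_one, ← M.end_act_mul v v⁻¹ hp, mul_inv_cancel, M.end_act_one hp] at h2
  exact h2

theorem zeta_inv {p : V} (hp : M.IsEnd p) {x : SG g} (hx : M.bact x p = p) (v : SG g) (k : ℕ) :
    zeta M p (x * v) k = x * zeta M p v k := by
  have h1 : M.bact x⁻¹ p = p := by
    conv_lhs => rw [← hx]
    rw [← M.end_act_mul x⁻¹ x hp, inv_mul_cancel, M.end_act_one hp]
  have h2 : M.bact (x * v)⁻¹ p = M.bact v⁻¹ p := by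
    rw [mul_inv_rev, M.end_act_mul v⁻¹ x⁻¹ hp, h1]
  unfold zeta
  rw [h2, mul_assoc]

/-- the terms of the contraction are near to the ray. -/
private theorem term_bd : ∃ R : ℝ, 1 ≤ R ∧ ∀ p : V, M.IsEnd p → ∀ (v : SG g)
    (j : Fin g ⊕ Fin g) (u : SG g) (k : ℕ),
    pth ((zeta M p v k)⁻¹ * zeta M p v (k + 1)) j ((zeta M p v k)⁻¹ * u) ≠ 0 →
      M.q u (zeta M p v k) ≤ R ∧ M.q u (zeta M p v (k + 1)) ≤ R ∧
        zeta M p v k ≠ zeta M p v (k + 1) := by
  classical
  obtain ⟨C', hC'⟩ := M.ray_step (rC M)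
  have hB := M.ball_finite 1 C'
  have hN : (⋃ x ∈ {y : SG g | M.q 1 y ≤ C'}, ⋃ j : Fin g ⊕ Fin g,
      Function.support (pth x j)).Finite := by
    refine hB.biUnion fun x _ => ?_
    exact Set.finite_iUnion fun j => pth_fin x j
  obtain ⟨R0, hR0⟩ := (hN.image (fun y => M.q 1 y)).bddAbove
  refine ⟨max 1 (max R0 (4 * (R0 * C'))), le_max_left _ _, fun p hp v j u k hne => ?_⟩
  have hstep := hC' v p (zeta M p v) hp (zeta_ray M hp v) k
  have e1 : M.q 1 ((zeta M p v k)⁻¹ * zeta M p v (k + 1)) = M.q (zeta M p v k)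
      (zeta M p v (k + 1)) := by
    have h := M.q_left (zeta M p v k) 1 ((zeta M p v k)⁻¹ * zeta M p v (k + 1))
    rw [mul_one, mul_inv_cancel_left] at h
    exact h.symm
  have e2 : M.q 1 ((zeta M p v k)⁻¹ * u) = M.q (zeta M p v k) u := by
    have h := M.q_left (zeta M p v k) 1 ((zeta M p v k)⁻¹ * u)
    rw [mul_one, mul_inv_cancel_left] at h
    exact h.symm
  have h1 : M.q (zeta M p v k) u ≤ R0 := by
    rw [← e2]
    apply hR0
    refine ⟨(zeta M p v k)⁻¹ * u, ?_, rfl⟩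
    rw [Set.mem_iUnion₂]
    refine ⟨(zeta M p v k)⁻¹ * zeta M p v (k + 1), ?_, ?_⟩
    · change M.q 1 ((zeta M p v k)⁻¹ * zeta M p v (k + 1)) ≤ C'
      rw [e1]
      exact hstep
    · rw [Set.mem_iUnion]
      exact ⟨j, hne⟩
  refine ⟨?_, ?_, ?_⟩
  · rw [M.q_symm]
    exact h1.trans ((le_max_left _ _).trans (le_max_right _ _))
  · have t := M.q_tri u (zeta M p v k) (zeta M p v (k + 1))
    rw [M.q_symm u (zeta M p v k)] at t
    have q1 := M.one_le_q (zeta M p v k) u
    have q2 := M.one_le_q (zeta M p v k) (zeta M p v (k + 1))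
    have h2 : M.q (zeta M p v k) u * M.q (zeta M p v k) (zeta M p v (k + 1)) ≤ R0 * C' :=
      mul_le_mul h1 hstep (by linarith) (by linarith)
    have h3 : M.q u (zeta M p v (k + 1)) ≤ 4 * (R0 * C') := by linarith
    exact h3.trans ((le_max_right _ _).trans (le_max_right _ _))
  · intro heq
    apply hne
    rw [heq, inv_mul_cancel]
    exact pth_one j _

theorem K0_locfin {p : V} (hp : M.IsEnd p) (v : SG g) (j : Fin g ⊕ Fin g) (u : SG g) :
    (Function.support fun k : ℕ =>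
      pth ((zeta M p v k)⁻¹ * zeta M p v (k + 1)) j ((zeta M p v k)⁻¹ * u)).Finite := by
  obtain ⟨R, -, hR⟩ := term_bd M
  have hl := M.ray_leave hp (zeta_ray M hp v) u R
  have hl2 : ((fun k : ℕ => k + 1) ⁻¹'
      {k : ℕ | M.q u (zeta M p v k) ≤ R ∧ nrm (M.pt (zeta M p v k)) ≠ p}).Finite :=
    hl.preimage (fun a _ b _ hab => Nat.succ_injective hab)
  apply (hl.union hl2).subset
  intro k hk
  obtain ⟨h1, h2, h3⟩ := hR p hp v j u k hk
  by_cases h4 : nrm (M.pt (zeta M p v k)) = p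
  · right
    refine ⟨h2, fun h5 => ?_⟩
    exact h3 (M.eq_of_nrm_pt (h4.trans h5.symm))
  · left
    exact ⟨h1, h4⟩

theorem K0_supp : ∃ C : ℝ, ∀ p : V, M.IsEnd p → ∀ (v : SG g) (j : Fin g ⊕ Fin g) (u : SG g),
    K0f M p v j u ≠ 0 → Bt C (M.pt v) (M.pt u) p := by
  obtain ⟨R, hR1, hR⟩ := term_bd M
  refine ⟨256 * R ^ 4 * rC M, fun p hp v j u hne => ?_⟩
  have h1 : ∃ k : ℕ, pth ((zeta M p v k)⁻¹ * zeta M p v (k + 1)) j
      ((zeta M p v k)⁻¹ * u) ≠ 0 := by
    by_contra hcon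
    push Not at hcon
    apply hne
    unfold K0f
    rw [finsum_congr hcon, finsum_zero, neg_zero]
  obtain ⟨k, hk⟩ := h1
  obtain ⟨h2, -, -⟩ := hR p hp v j u k hk
  have h3 := ((zeta_ray M hp v).2 k).1
  refine Bt_move (M.pt_hyp v) (M.pt_hyp v) (M.pt_hyp (zeta M p v k)) (M.pt_hyp u)
    (M.end_cone hp) ?_ ?_ h3
  · have h4 : M.q v v ≤ R := by
      rw [M.q_self]
      exact hR1
    exact h4
  · have h4 : M.q (zeta M p v k) u ≤ R := by
      rw [M.q_symm]
      exact h2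
    exact h4

/-- far on the ray the chain is the chain of the end. -/
private theorem end_chain {p : V} (hp : M.IsEnd p) (v u : SG g) :
    ∃ N : ℕ, ∀ k ≥ N, dl (zeta M p v k) u = eE M p u := by
  classical
  have hray := zeta_ray M hp v
  rcases hp with h1 | ⟨w, rfl⟩
  · have hl := M.ray_leave (Or.inl h1) hray u 1
    obtain ⟨N, hN⟩ := hl.bddAbove
    refine ⟨N + 1, fun k hk => ?_⟩
    have h2 : u ≠ zeta M p v k := by
      intro h3
      have h4 : k ∈ {k : ℕ | M.q u (zeta M p v k) ≤ 1 ∧ nrm (M.pt (zeta M p v k)) ≠ p} := by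
        refine ⟨?_, ?_⟩
        · rw [← h3, M.q_self]
        · intro h5
          apply M.nrm_pt_not_bd (zeta M p v k)
          rw [h5]
          exact h1
      have h5 := hN h4
      omega
    have h3 : nrm (M.pt u) ≠ p := by
      intro h4
      apply M.nrm_pt_not_bd u
      rw [h4]
      exact h1
    unfold dl eE
    rw [if_neg h2, if_neg h3]
  · obtain ⟨N, hN⟩ := M.ray_arrive hray
    refine ⟨N, fun k hk => ?_⟩
    rw [hN k hk]
    unfold dl eE
    by_cases h2 : u = w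
    · rw [if_pos h2, if_pos (by rw [h2])]
    · rw [if_neg h2, if_neg (fun h3 => h2 (M.eq_of_nrm_pt h3))]

private theorem dl_tr (x v u : SG g) : dl (x⁻¹ * v) (x⁻¹ * u) = dl v u := by
  unfold dl
  by_cases h : u = v
  · rw [if_pos h, if_pos (by rw [h])]
  · rw [if_neg h, if_neg (fun h' => h (mul_left_cancel h'))]

theorem K0_d1 {p : V} (hp : M.IsEnd p) (v u : SG g) :
    d1 (K0f M p v) u = dl v u - eE M p u := by
  classical
  obtain ⟨N1, hN1⟩ := end_chain M hp v u
  -- a common bound for the supports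
  have hfin : (⋃ j : Fin g ⊕ Fin g, ((Function.support fun k : ℕ =>
      pth ((zeta M p v k)⁻¹ * zeta M p v (k + 1)) j ((zeta M p v k)⁻¹ * (u * (sg j)⁻¹))) ∪
      (Function.support fun k : ℕ =>
      pth ((zeta M p v k)⁻¹ * zeta M p v (k + 1)) j ((zeta M p v k)⁻¹ * u)))).Finite :=
    Set.finite_iUnion fun j => (K0_locfin M hp v j _).union (K0_locfin M hp v j _)
  obtain ⟨N2, hN2⟩ := hfin.bddAbove
  set N := max N1 (N2 + 1) with hN
  have hz : ∀ (j : Fin g ⊕ Fin g) (w : SG g),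
      (w = u * (sg j)⁻¹ ∨ w = u) → K0f M p v j w = - ∑ k ∈ Finset.range N,
        pth ((zeta M p v k)⁻¹ * zeta M p v (k + 1)) j ((zeta M p v k)⁻¹ * w) := by
    intro j w hw
    unfold K0f
    congr 1
    apply finsum_eq_sum_of_support_subset
    intro k hk
    rw [Finset.coe_range, Set.mem_Iio]
    have h1 : k ≤ N2 := by
      apply hN2
      rw [Set.mem_iUnion]
      refine ⟨j, ?_⟩
      rcases hw with rfl | rfl
      · exact Or.inl hk
      · exact Or.inr hk
    have h2 : N2 + 1 ≤ N := le_max_right _ _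
    omega
  have h0 : zeta M p v 0 = v := (zeta_ray M hp v).1
  have hterm : ∀ k : ℕ, ∑ j : Fin g ⊕ Fin g,
      (pth ((zeta M p v k)⁻¹ * zeta M p v (k + 1)) j ((zeta M p v k)⁻¹ * (u * (sg j)⁻¹)) -
        pth ((zeta M p v k)⁻¹ * zeta M p v (k + 1)) j ((zeta M p v k)⁻¹ * u)) =
      dl (zeta M p v (k + 1)) u - dl (zeta M p v k) u := by
    intro k
    have h1 := d1_tr (pth ((zeta M p v k)⁻¹ * zeta M p v (k + 1))) (zeta M p v k) u
    rw [pth_d1, dl_tr] at h1
    have h2 : dl (1 : SG g) ((zeta M p v k)⁻¹ * u) = dl (zeta M p v k) u := by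
      have h3 := dl_tr (zeta M p v k) (zeta M p v k) u
      rw [inv_mul_cancel] at h3
      exact h3
    rw [h2] at h1
    exact h1
  calc d1 (K0f M p v) u = ∑ j : Fin g ⊕ Fin g, (K0f M p v j (u * (sg j)⁻¹) - K0f M p v j u) := rfl
    _ = ∑ j : Fin g ⊕ Fin g, - ∑ k ∈ Finset.range N,
        (pth ((zeta M p v k)⁻¹ * zeta M p v (k + 1)) j ((zeta M p v k)⁻¹ * (u * (sg j)⁻¹)) -
        pth ((zeta M p v k)⁻¹ * zeta M p v (k + 1)) j ((zeta M p v k)⁻¹ * u)) := by
        refine Finset.sum_congr rfl fun j _ => ?_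
        rw [hz j _ (Or.inl rfl), hz j _ (Or.inr rfl), Finset.sum_sub_distrib]
        ring
    _ = - ∑ k ∈ Finset.range N, ∑ j : Fin g ⊕ Fin g,
        (pth ((zeta M p v k)⁻¹ * zeta M p v (k + 1)) j ((zeta M p v k)⁻¹ * (u * (sg j)⁻¹)) -
        pth ((zeta M p v k)⁻¹ * zeta M p v (k + 1)) j ((zeta M p v k)⁻¹ * u)) := by
        rw [Finset.sum_neg_distrib, Finset.sum_comm]
    _ = - ∑ k ∈ Finset.range N, (dl (zeta M p v (k + 1)) u - dl (zeta M p v k) u) := by
        rw [Finset.sum_congr rfl fun k _ => hterm k]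
    _ = dl v u - eE M p u := by
        rw [Finset.sum_range_sub (fun k => dl (zeta M p v k) u), h0,
          hN1 N (le_max_left _ _)]
        ring

theorem K0_inv {p : V} (hp : M.IsEnd p) {x : SG g} (hx : M.bact x p = p) (v : SG g)
    (j : Fin g ⊕ Fin g) (u : SG g) : K0f M p (x * v) j (x * u) = K0f M p v j u := by
  unfold K0f
  congr 1
  refine finsum_congr fun k => ?_
  rw [zeta_inv M hp hx, zeta_inv M hp hx]
  have h1 : (x * zeta M p v k)⁻¹ * (x * zeta M p v (k + 1)) =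
      (zeta M p v k)⁻¹ * zeta M p v (k + 1) := by group
  have h2 : (x * zeta M p v k)⁻¹ * (x * u) = (zeta M p v k)⁻¹ * u := by group
  rw [h1, h2]

end Pool.Agent.Work.MP_d3656f_al
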