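import Mathlib
import Pool.Agent.Work.MP_d3656f_al.K.K0

/-!
# K/K1 : the contraction on edges

Let `z k = zeta p v k`, `z' k = zeta p (v * sg j) k`, `λ_k = Lam (z_k⁻¹ z_{k+1}) (z_k⁻¹ z'_k)
(z_k⁻¹ z'_{k+1})` translated by `z_k`, i.e. the loop
`pth(z_k → z_{k+1}) + pth(z_{k+1} → z'_{k+1}) - pth(z'_k → z'_{k+1}) - pth(z_k → z'_k)`.
* By `ray_step`, `ray_fellow` (`q v (v * sg j) = q 1 (sg j)` bounded) the three arguments of `Lam`
  lie in a finite set, so the supports of the fillings lie in one finite set `N`; a nonzero term at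
  `u` requires `q u (z k)` bounded, and not `z_k = z_{k+1} = z'_k = z'_{k+1}` (`fil_zero`,
  `Lam_one`). Finitely many `k` by `ray_leave`: if `nrm (pt (z k)) = p` then `p` is an orbit point
  `w` and by `ray_arrive` for large `k` all four are `w`.
* `K1_supp`: as in `K0_supp` (also the term `fil (Bj j) (v⁻¹ u)`: `q v u` bounded and
  `Bt (4 r) ..`: `q v u Q u p ≤ r * 4 r Q v p`).
* `K1_d2`: `d2` commutes with the locally finite sum, `fil_d2` with `Lam_fin`, `Lam_d1`,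
  `d2_tr`: `d2 (K1f p v j) i u = - Σ_k λ_k i u - Bj j i (v⁻¹ u)`. By telescoping
  `Σ_k λ_k = - K0f p v + K0f p (v * sg j) + lim c_N - c_0` with `c_k = ` the translate
  `pth (z_k⁻¹ z'_k)` by `z_k`, and `c_N i u = 0` for `N` large (`ray_leave`/`ray_arrive`,
  `pth_one`), `c_0 = ` the translate of `pth (sg j)` by `v`. So
  `d2 (K1f p v j) i u = K0f p v i u - K0f p (v * sg j) i u + pth (sg j) i (v⁻¹ u) -
  (pth (sg j) i (v⁻¹ u) - dl (1, j) (v⁻¹ u, i))`.
* `K1_inv`: from `zeta_inv`.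
-/

set_option autoImplicit false

namespace Pool.Agent.Work.MP_d3656f_al

variable {g : ℕ} (M : Model (SG g))

/-- the terms of `K1f` -/
private noncomputable def tK (p : V) (v : SG g) (j : Fin g ⊕ Fin g) (k : ℕ) (u : SG g) : ℤ :=
  fil (Lam ((zeta M p v k)⁻¹ * zeta M p v (k + 1))
      ((zeta M p v k)⁻¹ * zeta M p (v * sg j) k)
      ((zeta M p v k)⁻¹ * zeta M p (v * sg j) (k + 1))) ((zeta M p v k)⁻¹ * u)

private theorem K1f_eq (p : V) (v : SG g) (j : Fin g ⊕ Fin g) (u : SG g) :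
    K1f M p v j u = - (∑ᶠ k : ℕ, tK M p v j k u) - fil (Bj j) (v⁻¹ * u) := rfl

private theorem q_inv (z w : SG g) : M.q 1 (z⁻¹ * w) = M.q z w := by
  have h := M.q_left z 1 (z⁻¹ * w)
  rw [mul_one, mul_inv_cancel_left] at h
  exact h.symm

private theorem k1_bdd {N : Set (SG g)} (h : N.Finite) : ∃ R : ℝ, 1 ≤ R ∧ ∀ w ∈ N, M.q 1 w ≤ R := by
  obtain ⟨R, hR⟩ := (h.image (M.q 1)).bddAbove
  exact ⟨max 1 R, le_max_left _ _, fun w hw =>
    (hR (Set.mem_image_of_mem _ hw)).trans (le_max_right _ _)⟩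

private theorem k1_near : ∃ R : ℝ, 1 ≤ R ∧ ∀ p : V, M.IsEnd p →
    ∀ (v : SG g) (j : Fin g ⊕ Fin g) (k : ℕ),
      M.q (zeta M p v k) (zeta M p v (k + 1)) ≤ R ∧
      M.q (zeta M p v k) (zeta M p (v * sg j) k) ≤ R ∧
      M.q (zeta M p v k) (zeta M p (v * sg j) (k + 1)) ≤ R := by
  obtain ⟨r, hr⟩ := (Set.finite_range fun j : Fin g ⊕ Fin g => M.q 1 (sg j)).bddAbove
  obtain ⟨C1, hC1⟩ := M.ray_step (rC M)
  obtain ⟨C2, hC2⟩ := M.ray_fellow (rC M) r
  refine ⟨max 1 (max C1 (max C2 (4 * (C1 * C2)))), le_max_left _ _, ?_⟩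
  intro p hp v j k
  have e1 : M.q v (v * sg j) ≤ r := by
    have h1 := M.q_left v 1 (sg j)
    rw [mul_one] at h1
    rw [h1]
    exact hr (Set.mem_range_self j)
  have e2 := hC1 v p _ hp (zeta_ray M hp v) k
  have e3 := hC2 v (v * sg j) p _ _ hp e1 (zeta_ray M hp v) (zeta_ray M hp (v * sg j))
  have e4 := M.q_tri (zeta M p v k) (zeta M p v (k + 1)) (zeta M p (v * sg j) (k + 1))
  have o1 := M.one_le_q (zeta M p v k) (zeta M p v (k + 1))
  have o2 := M.one_le_q (zeta M p v (k + 1)) (zeta M p (v * sg j) (k + 1))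
  have e5 : M.q (zeta M p v k) (zeta M p v (k + 1)) *
      M.q (zeta M p v (k + 1)) (zeta M p (v * sg j) (k + 1)) ≤ C1 * C2 :=
    mul_le_mul e2 (e3 (k + 1)) (by linarith) (by linarith)
  refine ⟨?_, ?_, ?_⟩
  · exact e2.trans ((le_max_left _ _).trans (le_max_right _ _))
  · exact (e3 k).trans ((le_max_left _ _).trans ((le_max_right _ _).trans (le_max_right _ _)))
  · refine le_trans ?_ ((le_max_right C2 (4 * (C1 * C2))).trans
      ((le_max_right _ _).trans (le_max_right _ _)))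
    linarith

private theorem k1_fil (R₀ : ℝ) : ∃ R : ℝ, 1 ≤ R ∧ ∀ x y y' : SG g, M.q 1 x ≤ R₀ →
    M.q 1 y ≤ R₀ → M.q 1 y' ≤ R₀ → ∀ w, fil (Lam x y y') w ≠ 0 → M.q 1 w ≤ R := by
  have hT := M.ball_finite 1 R₀
  have hfin : (⋃ x ∈ {x : SG g | M.q 1 x ≤ R₀}, ⋃ y ∈ {x : SG g | M.q 1 x ≤ R₀},
      ⋃ y' ∈ {x : SG g | M.q 1 x ≤ R₀}, Function.support (fil (Lam x y y'))).Finite :=
    hT.biUnion fun x _ => hT.biUnion fun y _ => hT.biUnion fun y' _ => fil_fin _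
  obtain ⟨R, hR, h⟩ := k1_bdd M hfin
  refine ⟨R, hR, fun x y y' hx hy hy' w hw => h w ?_⟩
  refine Set.mem_biUnion hx (Set.mem_biUnion hy (Set.mem_biUnion hy' hw))

private theorem k1_pth (R₀ : ℝ) : ∃ R : ℝ, 1 ≤ R ∧ ∀ x : SG g, M.q 1 x ≤ R₀ →
    ∀ i w, pth x i w ≠ 0 → M.q 1 w ≤ R := by
  have hT := M.ball_finite 1 R₀
  have hfin : (⋃ x ∈ {x : SG g | M.q 1 x ≤ R₀}, ⋃ i : Fin g ⊕ Fin g,
      Function.support (pth x i)).Finite :=
    hT.biUnion fun x _ => Set.finite_iUnion fun i => pth_fin x i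
  obtain ⟨R, hR, h⟩ := k1_bdd M hfin
  refine ⟨R, hR, fun x hx i w hw => h w ?_⟩
  exact Set.mem_biUnion hx (Set.mem_iUnion.2 ⟨i, hw⟩)

private theorem k1_Bj : ∃ R : ℝ, 1 ≤ R ∧ ∀ (j : Fin g ⊕ Fin g) (w : SG g),
    fil (Bj j) w ≠ 0 → M.q 1 w ≤ R := by
  have hfin : (⋃ j : Fin g ⊕ Fin g, Function.support (fil (Bj j))).Finite :=
    Set.finite_iUnion fun j => fil_fin _
  obtain ⟨R, hR, h⟩ := k1_bdd M hfin
  exact ⟨R, hR, fun j w hw => h w (Set.mem_iUnion.2 ⟨j, hw⟩)⟩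

/-- only finitely many indices `k` matter for a given `u` -/
private theorem k1_fin {p : V} (hp : M.IsEnd p) (v : SG g) (j : Fin g ⊕ Fin g) (u : SG g)
    (R : ℝ) : {k : ℕ | M.q u (zeta M p v k) ≤ R ∧
      ¬ (zeta M p v k = zeta M p v (k + 1) ∧ zeta M p v k = zeta M p (v * sg j) k ∧
        zeta M p v k = zeta M p (v * sg j) (k + 1))}.Finite := by
  obtain ⟨R₀, hR₀, hnear⟩ := k1_near M
  have f1 := M.ray_leave hp (zeta_ray M hp v) u R
  have f2 := (M.ray_leave hp (zeta_ray M hp v) u (4 * (R * R₀))).preimage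
    (Nat.succ_injective.injOn (s := Nat.succ ⁻¹' _))
  have f3 := M.ray_leave hp (zeta_ray M hp (v * sg j)) u (4 * (R * R₀))
  have f4 := (M.ray_leave hp (zeta_ray M hp (v * sg j)) u (4 * (R * R₀))).preimage
    (Nat.succ_injective.injOn (s := Nat.succ ⁻¹' _))
  refine (f1.union (f2.union (f3.union f4))).subset ?_
  rintro k ⟨hk, hne⟩
  obtain ⟨n1, n2, n3⟩ := hnear p hp v j k
  have o0 := M.one_le_q u (zeta M p v k)
  have key : ∀ w, M.q (zeta M p v k) w ≤ R₀ → M.q u w ≤ 4 * (R * R₀) := by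
    intro w hw
    have e1 := M.q_tri u (zeta M p v k) w
    have e2 : M.q u (zeta M p v k) * M.q (zeta M p v k) w ≤ R * R₀ :=
      mul_le_mul hk hw (by linarith [M.one_le_q (zeta M p v k) w]) (by linarith)
    linarith
  by_contra hcon
  rw [Set.mem_union, Set.mem_union, Set.mem_union] at hcon
  push Not at hcon
  obtain ⟨c1, c2, c3, c4⟩ := hcon
  have d1' : nrm (M.pt (zeta M p v k)) = p := by
    by_contra h
    exact c1 ⟨hk, h⟩
  have d2' : nrm (M.pt (zeta M p v (k + 1))) = p := by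
    by_contra h
    exact c2 ⟨key _ n1, h⟩
  have d3' : nrm (M.pt (zeta M p (v * sg j) k)) = p := by
    by_contra h
    exact c3 ⟨key _ n2, h⟩
  have d4' : nrm (M.pt (zeta M p (v * sg j) (k + 1))) = p := by
    by_contra h
    exact c4 ⟨key _ n3, h⟩
  exact hne ⟨M.eq_of_nrm_pt (d1'.trans d2'.symm), M.eq_of_nrm_pt (d1'.trans d3'.symm),
    M.eq_of_nrm_pt (d1'.trans d4'.symm)⟩

private theorem tK_ne : ∃ R : ℝ, 1 ≤ R ∧ ∀ p : V, M.IsEnd p →
    ∀ (v : SG g) (j : Fin g ⊕ Fin g) (k : ℕ) (u : SG g), tK M p v j k u ≠ 0 →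
      M.q u (zeta M p v k) ≤ R ∧
      ¬ (zeta M p v k = zeta M p v (k + 1) ∧ zeta M p v k = zeta M p (v * sg j) k ∧
        zeta M p v k = zeta M p (v * sg j) (k + 1)) := by
  obtain ⟨R₀, hR₀, hnear⟩ := k1_near M
  obtain ⟨R, hR, hfil⟩ := k1_fil M R₀
  refine ⟨R, hR, ?_⟩
  intro p hp v j k u hne
  obtain ⟨n1, n2, n3⟩ := hnear p hp v j k
  rw [← q_inv] at n1 n2 n3
  refine ⟨?_, ?_⟩
  · have h1 := hfil _ _ _ n1 n2 n3 _ hne
    rw [q_inv, M.q_symm] at h1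
    exact h1
  · rintro ⟨e1, e2, e3⟩
    refine hne ?_
    unfold tK
    rw [← e1, ← e2, ← e3, inv_mul_cancel]
    exact fil_zero _ (fun j u => Lam_one j u) _

private theorem tK_fin {p : V} (hp : M.IsEnd p) (v : SG g) (j : Fin g ⊕ Fin g) (u : SG g) :
    (Function.support fun k : ℕ => tK M p v j k u).Finite := by
  obtain ⟨R, hR, h⟩ := tK_ne M
  exact (k1_fin M hp v j u R).subset fun k hk => h p hp v j k u hk

private theorem k1_d2form (i : Fin g ⊕ Fin g) : ∃ a b : SG g, ∀ (m : SG g → ℤ) (u : SG g),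
    d2 m i u = m (u * a) - m (u * b) := by
  rcases i with i | i
  · exact ⟨(pa i)⁻¹, (ma i)⁻¹, fun m u => rfl⟩
  · exact ⟨(pb i)⁻¹, (mb i)⁻¹, fun m u => rfl⟩

private theorem k1_tele (c : ℕ → ℤ) (h : (Function.support c).Finite) :
    (Function.support fun k => c (k + 1) - c k).Finite ∧ ∑ᶠ k, (c (k + 1) - c k) = - c 0 := by
  obtain ⟨N, hN⟩ := h.bddAbove
  have hz : ∀ k, N < k → c k = 0 := by
    intro k hk
    by_contra hc
    exact absurd (hN hc) (not_le.2 hk)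
  have hsub : (Function.support fun k => c (k + 1) - c k) ⊆ ((Finset.range (N + 1) : Finset ℕ) : Set ℕ) := by
    intro k hk
    rw [Finset.coe_range, Set.mem_Iio]
    by_contra hcon
    refine hk ?_
    show c (k + 1) - c k = 0
    rw [hz (k + 1) (by omega), hz k (by omega), sub_zero]
  refine ⟨(Finset.finite_toSet _).subset hsub, ?_⟩
  rw [finsum_eq_sum_of_support_subset _ hsub, Finset.sum_range_sub, hz (N + 1) (by omega), zero_sub]

private theorem dl_shift (v u : SG g) (j i : Fin g ⊕ Fin g) :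
    dl ((1 : SG g), j) (v⁻¹ * u, i) = dl (v, j) (u, i) := by
  unfold dl
  congr 1
  rw [Prod.mk.injEq, Prod.mk.injEq, inv_mul_eq_one]
  exact propext ⟨fun h => ⟨h.1.symm, h.2⟩, fun h => ⟨h.1.symm, h.2⟩⟩

theorem K1_supp : ∃ C : ℝ, ∀ p : V, M.IsEnd p → ∀ (v : SG g) (j : Fin g ⊕ Fin g) (u : SG g),
    K1f M p v j u ≠ 0 → Bt C (M.pt v) (M.pt u) p := by
  obtain ⟨R1, hR1, h1⟩ := tK_ne M
  obtain ⟨R2, hR2, h2⟩ := k1_Bj M
  refine ⟨256 * (max R1 R2) ^ 4 * rC M, ?_⟩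
  intro p hp v j u hne
  rw [K1f_eq] at hne
  have hmax : 1 ≤ max R1 R2 := hR1.trans (le_max_left _ _)
  have hv : Q (M.pt v) (M.pt v) ≤ max R1 R2 := by
    have := M.q_self v
    unfold Model.q at this
    rw [this]
    exact hmax
  have hray := zeta_ray M hp v
  by_cases hs : ∑ᶠ k : ℕ, tK M p v j k u = 0
  · rw [hs, neg_zero, zero_sub, neg_ne_zero] at hne
    have h3 := h2 j _ hne
    rw [q_inv] at h3
    have h4 := (hray.2 0).1
    rw [hray.1] at h4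
    exact Bt_move (M.pt_hyp v) (M.pt_hyp v) (M.pt_hyp v) (M.pt_hyp u) (M.end_cone hp) hv
      (h3.trans (le_max_right _ _)) h4
  · obtain ⟨k, hk⟩ : ∃ k : ℕ, tK M p v j k u ≠ 0 := by
      by_contra hcon
      push Not at hcon
      exact hs (finsum_eq_zero_of_forall_eq_zero hcon)
    have h3 := (h1 p hp v j k u hk).1
    rw [M.q_symm] at h3
    exact Bt_move (M.pt_hyp v) (M.pt_hyp v) (M.pt_hyp _) (M.pt_hyp u) (M.end_cone hp) hv
      (h3.trans (le_max_left _ _)) (hray.2 k).1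

theorem K1_d2 {p : V} (hp : M.IsEnd p) (v : SG g) (j i : Fin g ⊕ Fin g) (u : SG g) :
    d2 (K1f M p v j) i u = dl (v, j) (u, i) - (K0f M p (v * sg j) i u - K0f M p v i u) := by
  obtain ⟨a, b, hab⟩ := k1_d2form (g := g) i
  obtain ⟨R₀, hR₀, hnear⟩ := k1_near M
  obtain ⟨R, hR, hpth⟩ := k1_pth M R₀
  have hP := K0_locfin M hp v i u
  have hP' := K0_locfin M hp (v * sg j) i u
  obtain ⟨c, hc⟩ : ∃ c : ℕ → ℤ, ∀ k, c k =
      pth ((zeta M p v k)⁻¹ * zeta M p (v * sg j) k) i ((zeta M p v k)⁻¹ * u) :=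
    ⟨_, fun _ => rfl⟩
  have hcf : (Function.support c).Finite := by
    refine (k1_fin M hp v j u R).subset fun k hk => ?_
    have hk' : c k ≠ 0 := hk
    rw [hc] at hk'
    refine ⟨?_, ?_⟩
    · have n2 := (hnear p hp v j k).2.1
      rw [← q_inv] at n2
      have h1 := hpth _ n2 i _ hk'
      rw [q_inv, M.q_symm] at h1
      exact h1
    · rintro ⟨-, e2, -⟩
      refine hk' ?_
      rw [← e2, inv_mul_cancel]
      exact pth_one i _
  obtain ⟨t1, t2⟩ := k1_tele c hcf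
  have hT : ∀ w, (Function.support fun k : ℕ => tK M p v j k w).Finite := tK_fin M hp v j
  have h1 : d2 (K1f M p v j) i u = -(∑ᶠ k : ℕ, (tK M p v j k (u * a) - tK M p v j k (u * b))) -
      (fil (Bj j) (v⁻¹ * (u * a)) - fil (Bj j) (v⁻¹ * (u * b))) := by
    rw [hab, finsum_sub_distrib (hT _) (hT _), K1f_eq, K1f_eq]
    ring
  have h2 : ∀ k : ℕ, tK M p v j k (u * a) - tK M p v j k (u * b) =
      (pth ((zeta M p v k)⁻¹ * zeta M p v (k + 1)) i ((zeta M p v k)⁻¹ * u) -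
        pth ((zeta M p (v * sg j) k)⁻¹ * zeta M p (v * sg j) (k + 1)) i
          ((zeta M p (v * sg j) k)⁻¹ * u)) + (c (k + 1) - c k) := by
    intro k
    have e := d2_tr (fil (Lam ((zeta M p v k)⁻¹ * zeta M p v (k + 1))
      ((zeta M p v k)⁻¹ * zeta M p (v * sg j) k)
      ((zeta M p v k)⁻¹ * zeta M p (v * sg j) (k + 1)))) (zeta M p v k) i u
    rw [fil_d2 _ (Lam_fin _ _ _) (Lam_d1 _ _ _), hab] at e
    have e' : tK M p v j k (u * a) - tK M p v j k (u * b) =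
        Lam ((zeta M p v k)⁻¹ * zeta M p v (k + 1))
          ((zeta M p v k)⁻¹ * zeta M p (v * sg j) k)
          ((zeta M p v k)⁻¹ * zeta M p (v * sg j) (k + 1)) i ((zeta M p v k)⁻¹ * u) := e
    rw [e', hc, hc]
    unfold Lam
    have g1 : ∀ x y w : SG g, (x⁻¹ * y)⁻¹ * (x⁻¹ * w) = y⁻¹ * w := by
      intro x y w
      group
    rw [g1, g1, g1, g1]
    ring
  have h3 := d2_tr (fil (Bj j)) v i u
  rw [fil_d2 _ (Bj_fin j) (Bj_d1 j), hab] at h3
  have h3' : fil (Bj j) (v⁻¹ * (u * a)) - fil (Bj j) (v⁻¹ * (u * b)) =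
      pth (sg j) i (v⁻¹ * u) - dl ((1 : SG g), j) (v⁻¹ * u, i) := h3
  have hsub : (Function.support fun k : ℕ =>
      (pth ((zeta M p v k)⁻¹ * zeta M p v (k + 1)) i ((zeta M p v k)⁻¹ * u) -
        pth ((zeta M p (v * sg j) k)⁻¹ * zeta M p (v * sg j) (k + 1)) i
          ((zeta M p (v * sg j) k)⁻¹ * u))).Finite :=
    (hP.union hP').subset (Function.support_sub _ _)
  have c0 : c 0 = pth (sg j) i (v⁻¹ * u) := by
    rw [hc, (zeta_ray M hp v).1, (zeta_ray M hp (v * sg j)).1, inv_mul_cancel_left]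
  rw [h1, finsum_congr h2, finsum_add_distrib hsub t1, finsum_sub_distrib hP hP', t2, h3', c0,
    dl_shift]
  unfold K0f
  ring

theorem K1_inv {p : V} (hp : M.IsEnd p) {x : SG g} (hx : M.bact x p = p) (v : SG g)
    (j : Fin g ⊕ Fin g) (u : SG g) : K1f M p (x * v) j (x * u) = K1f M p v j u := by
  rw [K1f_eq, K1f_eq]
  have g1 : ∀ y w : SG g, (x * y)⁻¹ * (x * w) = y⁻¹ * w := by
    intro y w
    group
  have h1 : ∀ k : ℕ, tK M p (x * v) j k (x * u) = tK M p v j k u := by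
    intro k
    unfold tK
    rw [mul_assoc x v (sg j), zeta_inv M hp hx, zeta_inv M hp hx, zeta_inv M hp hx,
      zeta_inv M hp hx, g1, g1, g1, g1]
  rw [finsum_congr h1, g1]

end Pool.Agent.Work.MP_d3656f_al
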