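import Mathlib
import Pool.Agent.Work.MP_d3656f_al.K.K1

/-!
# K/K2 : the contraction data exist

`K2_face`: fix `v`, let
`D u = Σ_i (K1f (v pa_i) (inl i) u + K1f (v pb_i) (inr i) u - K1f (v ma_i) (inl i) u
  - K1f (v mb_i) (inr i) u) - dl v u`.
`d2` is additive; by `K1_d2`, `d2 D i u` is the sum of the edge terms
`dl (v pa_i, inl i) (u, ·) + ...` minus `d2 (dl v)`, which cancel (the definition of `d2`:
`dl v (u (pa i)⁻¹) = 1` iff `u = v pa i`), and of the terms
`- Σ_i ((K0 (v pa_i a_i) - K0 (v pa_i)) + (K0 (v pb_i b_i) - K0 (v pb_i)) - (K0 (v ma_i a_i) -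
K0 (v ma_i)) - (K0 (v mb_i b_i) - K0 (v mb_i)))`; with `pa_i a_i = pb_i`, `pb_i b_i = ma_i a_i`,
`ma_i = mb_i b_i` (`sP_succ`) this is `- Σ_i (K0 (v mb_i) - K0 (v pa_i)) = 0` (telescoping,
`sP_top`, `sP_zero`). So `D` is constant by `cyc2`. It vanishes at some `u`: by `K1_supp` and
`Bt_move` a nonzero value of the sum at `u` implies `Bt C' v u p` with `C'` not depending on `u`
(`q v (v pa_i)` etc. are bounded), and `not_all_Bt` gives `u ≠ v` without this.
`kd_bd`, `kd_base`: assemble; `nrm p = p` for ends; `eE p u = 0` for `p ∈ Bd`;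
`base = nrm (pt 1)`, `eE base u = dl 1 u` by `eq_of_nrm_pt`. One constant for `s0`, `s1` by
`Bt_mono`.
-/

set_option autoImplicit false

namespace Pool.Agent.Work.MP_d3656f_al

variable {g : ℕ} (M : Model (SG g))

private theorem d2_add (m m' : SG g → ℤ) (k : Fin g ⊕ Fin g) (u : SG g) :
    d2 (fun w => m w + m' w) k u = d2 m k u + d2 m' k u := by
  rcases k with i | i
  · change (m _ + m' _) - (m _ + m' _) = (m _ - m _) + (m' _ - m' _)
    ring
  · change (m _ + m' _) - (m _ + m' _) = (m _ - m _) + (m' _ - m' _)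
    ring

private theorem d2_sub (m m' : SG g → ℤ) (k : Fin g ⊕ Fin g) (u : SG g) :
    d2 (fun w => m w - m' w) k u = d2 m k u - d2 m' k u := by
  rcases k with i | i
  · change (m _ - m' _) - (m _ - m' _) = (m _ - m _) - (m' _ - m' _)
    ring
  · change (m _ - m' _) - (m _ - m' _) = (m _ - m _) - (m' _ - m' _)
    ring

private theorem d2_sum (f : Fin g → SG g → ℤ) (k : Fin g ⊕ Fin g) (u : SG g) :
    d2 (fun w => ∑ i, f i w) k u = ∑ i, d2 (f i) k u := by
  rcases k with i | i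
  · change (∑ i', f i' _) - (∑ i', f i' _) = ∑ i', (f i' _ - f i' _)
    rw [Finset.sum_sub_distrib]
  · change (∑ i', f i' _) - (∑ i', f i' _) = ∑ i', (f i' _ - f i' _)
    rw [Finset.sum_sub_distrib]

private theorem d2_four (a b c d : SG g → ℤ) (k : Fin g ⊕ Fin g) (u : SG g) :
    d2 (fun w => a w + b w - c w - d w) k u = d2 a k u + d2 b k u - d2 c k u - d2 d k u := by
  rcases k with i | i
  · change (a _ + b _ - c _ - d _) - (a _ + b _ - c _ - d _) =
      (a _ - a _) + (b _ - b _) - (c _ - c _) - (d _ - d _)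
    ring
  · change (a _ + b _ - c _ - d _) - (a _ + b _ - c _ - d _) =
      (a _ - a _) + (b _ - b _) - (c _ - c _) - (d _ - d _)
    ring

private theorem dl_pair_same (v u : SG g) (j : Fin g ⊕ Fin g) : dl (v, j) (u, j) = dl v u := by
  unfold dl
  by_cases h : u = v
  · rw [if_pos h, if_pos (by rw [h])]
  · rw [if_neg h, if_neg (fun h' => h (Prod.mk.inj h').1)]

private theorem dl_pair_ne (v u : SG g) {j k : Fin g ⊕ Fin g} (hk : k ≠ j) :
    dl (v, j) (u, k) = 0 := by
  unfold dl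
  rw [if_neg (fun h' => hk (Prod.mk.inj h').2)]

private theorem dl_right (v u x : SG g) : dl v (u * x⁻¹) = dl (v * x) u := by
  unfold dl
  by_cases h : u = v * x
  · rw [if_pos h, if_pos (by rw [h, mul_inv_cancel_right])]
  · rw [if_neg h, if_neg (fun h' => h (by rw [← h', inv_mul_cancel_right]))]

/-- the edge terms are the boundary of the face. -/
private theorem edges (v u : SG g) (k : Fin g ⊕ Fin g) :
    ∑ i : Fin g, (dl (v * pa i, Sum.inl i) (u, k) + dl (v * pb i, Sum.inr i) (u, k)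
      - dl (v * ma i, Sum.inl i) (u, k) - dl (v * mb i, Sum.inr i) (u, k)) =
      d2 (fun w => dl v w) k u := by
  classical
  rcases k with i0 | i0
  · have h1 : d2 (fun w => dl v w) (Sum.inl i0) u = dl (v * pa i0) u - dl (v * ma i0) u := by
      change dl v (u * (pa i0)⁻¹) - dl v (u * (ma i0)⁻¹) = _
      rw [dl_right, dl_right]
    rw [h1, Finset.sum_eq_single i0]
    · rw [dl_pair_same, dl_pair_same, dl_pair_ne _ _ (by simp), dl_pair_ne _ _ (by simp)]
      ring
    · intro i _ hi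
      rw [dl_pair_ne _ _ (by simpa using hi.symm), dl_pair_ne _ _ (by simp),
        dl_pair_ne _ _ (by simpa using hi.symm), dl_pair_ne _ _ (by simp)]
      ring
    · intro h
      exact absurd (Finset.mem_univ i0) h
  · have h1 : d2 (fun w => dl v w) (Sum.inr i0) u = dl (v * pb i0) u - dl (v * mb i0) u := by
      change dl v (u * (pb i0)⁻¹) - dl v (u * (mb i0)⁻¹) = _
      rw [dl_right, dl_right]
    rw [h1, Finset.sum_eq_single i0]
    · rw [dl_pair_same, dl_pair_same, dl_pair_ne _ _ (by simp), dl_pair_ne _ _ (by simp)]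
      ring
    · intro i _ hi
      rw [dl_pair_ne _ _ (by simp), dl_pair_ne _ _ (by simpa using hi.symm),
        dl_pair_ne _ _ (by simp), dl_pair_ne _ _ (by simpa using hi.symm)]
      ring
    · intro h
      exact absurd (Finset.mem_univ i0) h

/-- the four terms. -/
private noncomputable def four (p : V) (v : SG g) (i : Fin g) (u : SG g) : ℤ :=
  K1f M p (v * pa i) (Sum.inl i) u + K1f M p (v * pb i) (Sum.inr i) u
    - K1f M p (v * ma i) (Sum.inl i) u - K1f M p (v * mb i) (Sum.inr i) u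

private theorem four_d2 {p : V} (hp : M.IsEnd p) (v : SG g) (i : Fin g) (k : Fin g ⊕ Fin g)
    (u : SG g) : d2 (four M p v i) k u =
    (dl (v * pa i, Sum.inl i) (u, k) + dl (v * pb i, Sum.inr i) (u, k)
      - dl (v * ma i, Sum.inl i) (u, k) - dl (v * mb i, Sum.inr i) (u, k)) -
      (K0f M p (v * sP ((i : ℕ) + 1)) k u - K0f M p (v * sP (i : ℕ)) k u) := by
  have h1 : d2 (four M p v i) k u = d2 (K1f M p (v * pa i) (Sum.inl i)) k u +
      d2 (K1f M p (v * pb i) (Sum.inr i)) k u - d2 (K1f M p (v * ma i) (Sum.inl i)) k u -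
      d2 (K1f M p (v * mb i) (Sum.inr i)) k u :=
    d2_four (K1f M p (v * pa i) (Sum.inl i)) (K1f M p (v * pb i) (Sum.inr i))
      (K1f M p (v * ma i) (Sum.inl i)) (K1f M p (v * mb i) (Sum.inr i)) k u
  have e1 : v * pa i * sg (Sum.inl i) = v * pb i := by
    unfold pa pb
    group
  have e2 : v * pb i * sg (Sum.inr i) = v * ma i * sg (Sum.inl i) := by
    unfold pb ma
    group
  have e3 : v * mb i * sg (Sum.inr i) = v * ma i := by
    unfold mb ma
    rw [sP_succ]
    group
  have e4 : v * sP ((i : ℕ) + 1) = v * mb i := rfl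
  have e5 : v * sP (i : ℕ) = v * pa i := rfl
  rw [h1, K1_d2 M hp, K1_d2 M hp, K1_d2 M hp, K1_d2 M hp, e1, e2, e3, e4, e5]
  ring

private theorem face_bt (C : ℝ) (v : SG g) : ∃ C' : ℝ, ∀ p : V, M.IsEnd p →
    ∀ (w : SG g), (∃ i : Fin g, w = v * pa i ∨ w = v * pb i ∨ w = v * ma i ∨ w = v * mb i) →
    ∀ u : SG g, Bt C (M.pt w) (M.pt u) p → Bt C' (M.pt v) (M.pt u) p := by
  classical
  have hfin : {w : SG g | ∃ i : Fin g, w = v * pa i ∨ w = v * pb i ∨ w = v * ma i ∨
      w = v * mb i}.Finite := by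
    have h1 : (⋃ i : Fin g, ({v * pa i, v * pb i, v * ma i, v * mb i} : Set (SG g))).Finite :=
      Set.finite_iUnion fun i => Set.toFinite _
    apply h1.subset
    rintro w ⟨i, hi⟩
    rw [Set.mem_iUnion]
    exact ⟨i, by simpa using hi⟩
  obtain ⟨r, hr⟩ := (hfin.image (fun w => M.q v w)).bddAbove
  refine ⟨256 * (max r 1) ^ 4 * C, fun p hp w hw u hB => ?_⟩
  refine Bt_move (M.pt_hyp w) (M.pt_hyp v) (M.pt_hyp u) (M.pt_hyp u) (M.end_cone hp) ?_ ?_ hB
  · have h1 : M.q w v ≤ r := by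
      rw [M.q_symm]
      exact hr ⟨w, hw, rfl⟩
    exact h1.trans (le_max_left _ _)
  · have h1 : M.q u u ≤ max r 1 := by
      rw [M.q_self]
      exact le_max_right _ _
    exact h1

theorem K2_face {p : V} (hp : M.IsEnd p) (v u : SG g) :
    ∑ i : Fin g, (K1f M p (v * pa i) (Sum.inl i) u + K1f M p (v * pb i) (Sum.inr i) u
      - K1f M p (v * ma i) (Sum.inl i) u - K1f M p (v * mb i) (Sum.inr i) u) = dl v u := by
  have hd : ∀ k w, d2 (fun w => ∑ i : Fin g, four M p v i w - dl v w) k w = 0 := by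
    intro k w
    have h1 : d2 (fun w => ∑ i : Fin g, four M p v i w - dl v w) k w =
        d2 (fun w => ∑ i : Fin g, four M p v i w) k w - d2 (fun w => dl v w) k w :=
      d2_sub (fun w => ∑ i : Fin g, four M p v i w) (fun w => dl v w) k w
    rw [h1, d2_sum, Finset.sum_congr rfl fun i _ => four_d2 M hp v i k w,
      Finset.sum_sub_distrib, edges,
      ← Finset.sum_range (fun i : ℕ => K0f M p (v * sP (i + 1)) k w - K0f M p (v * sP i) k w),
      Finset.sum_range_sub (fun i : ℕ => K0f M p (v * sP i) k w), sP_top, sP_zero, sub_self]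
    ring
  obtain ⟨C, hC⟩ := K1_supp M
  obtain ⟨C', hC'⟩ := face_bt M C v
  obtain ⟨w, hwv, hw⟩ := M.not_all_Bt C' v hp
  have hz : ∀ (x : SG g) (j : Fin g ⊕ Fin g), (∃ i : Fin g, x = v * pa i ∨ x = v * pb i ∨
      x = v * ma i ∨ x = v * mb i) → K1f M p x j w = 0 := by
    intro x j hx
    by_contra hne
    exact hw (hC' p hp x hx w (hC p hp x j w hne))
  have hw0 : ∑ i : Fin g, four M p v i w - dl v w = 0 := by
    have h1 : ∀ i : Fin g, four M p v i w = 0 := by
      intro i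
      unfold four
      rw [hz _ _ ⟨i, Or.inl rfl⟩, hz _ _ ⟨i, Or.inr (Or.inl rfl)⟩,
        hz _ _ ⟨i, Or.inr (Or.inr (Or.inl rfl))⟩, hz _ _ ⟨i, Or.inr (Or.inr (Or.inr rfl))⟩]
      ring
    have h2 : dl v w = 0 := by
      unfold dl
      rw [if_neg hwv]
    rw [Finset.sum_congr rfl fun i _ => h1 i, h2]
    simp
  have h1 : ∑ i : Fin g, four M p v i u - dl v u = ∑ i : Fin g, four M p v i w - dl v w :=
    cyc2 (fun w => ∑ i : Fin g, four M p v i w - dl v w) hd u w
  rw [hw0] at h1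
  exact sub_eq_zero.1 h1

private theorem kd_end {p : V} (hp : M.IsEnd p) (e : SG g → ℤ) (he : ∀ u, eE M p u = e u) :
    ∃ C : ℝ, Nonempty (KD M C p e) := by
  obtain ⟨C0, hC0⟩ := K0_supp M
  obtain ⟨C1, hC1⟩ := K1_supp M
  refine ⟨max C0 C1, ⟨⟨K0f M p, K1f M p, ?_, ?_, ?_, ?_, ?_, ?_, ?_⟩⟩⟩
  · intro v u
    rw [K0_d1 M hp, he]
  · intro v j k u
    exact K1_d2 M hp v j k u
  · intro v u
    exact K2_face M hp v u
  · intro v j u h
    exact Bt_mono (le_max_left _ _) (M.pt_cone v) (M.end_cone hp) (hC0 p hp v j u h)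
  · intro v j u h
    exact Bt_mono (le_max_right _ _) (M.pt_cone v) (M.end_cone hp) (hC1 p hp v j u h)
  · intro x hx v j u
    rw [M.end_nrm hp] at hx
    exact K0_inv M hp hx v j u
  · intro x hx v j u
    rw [M.end_nrm hp] at hx
    exact K1_inv M hp hx v j u

theorem kd_bd {p : V} (hp : p ∈ Bd) : ∃ C : ℝ, Nonempty (KD M C p (fun _ => 0)) := by
  refine kd_end M (Or.inl hp) _ fun u => ?_
  unfold eE
  rw [if_neg]
  intro h
  apply M.nrm_pt_not_bd u
  rw [h]
  exact hp

theorem kd_base : ∃ C : ℝ, Nonempty (KD M C base (dl 1)) := by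
  have hb : nrm (M.pt 1) = base := by
    rw [M.pt_one]
    unfold nrm
    have h : (base 2) = 1 := by
      unfold base
      simp
    rw [h, inv_one, one_smul]
  refine kd_end M (Or.inr ⟨1, hb.symm⟩) _ fun u => ?_
  unfold eE dl
  by_cases h : u = 1
  · rw [if_pos h, if_pos (by rw [h, hb])]
  · rw [if_neg h, if_neg (fun h' => h (M.eq_of_nrm_pt (h'.trans hb.symm)))]

end Pool.Agent.Work.MP_d3656f_al
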